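import Pool.Agent.Helper25.HL.Scheme

/-!
# Project HL: the conclusion from the goals
-/

set_option autoImplicit false

open Filter Topology

noncomputable section

namespace Pool.Agent.Helper25.HL

theorem concl (hSC : S_SC) (hPG : S_PG) (hHAP : S_HAP) (hNLI : S_NLI) :
    ¬ (∀ (X : Type) [NormedAddCommGroup X] [NormedSpace ℂ X] [CompleteSpace X],
    ((∀ K : Set X, IsCompact K → ∀ ε : ℝ, 0 < ε →
        ∃ S : X →L[ℂ] X, FiniteDimensional ℂ (LinearMap.range (S : X →ₗ[ℂ] X)) ∧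
          ∀ x ∈ K, ‖S x - x‖ < ε) ∧
     ∀ (f : ℕ → X →L[ℂ] ℂ) (x : ℕ → X) (T : X →L[ℂ] X),
       Summable (fun i => ‖f i‖ * ‖x i‖) →
       (∀ y, T y = ∑' i, f i y • x i) →
       Summable (fun μ : ℂ =>
         (Module.finrank ℂ (Module.End.maxGenEigenspace (T : X →ₗ[ℂ] X) μ) : ℝ) * ‖μ‖) →
       ∑' i, f i (x i) =
         ∑' μ : ℂ, (Module.finrank ℂ (Module.End.maxGenEigenspace (T : X →ₗ[ℂ] X) μ) : ℂ) * μ)
    ↔ ∀ Y : Submodule ℂ X, IsClosed (Y : Set X) →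
        ∀ K : Set Y, IsCompact K → ∀ ε : ℝ, 0 < ε →
          ∃ S : Y →L[ℂ] Y, FiniteDimensional ℂ (LinearMap.range (S : Y →ₗ[ℂ] Y)) ∧
            ∀ y ∈ K, ‖S y - y‖ < ε) := by
  intro h
  obtain ⟨s⟩ := hSC
  have h1 := (h (XX s.P s.D)).2 (hHAP s.P s.D (hPG s.P s.D s.W))
  obtain ⟨f, x, T, a1, a2, a3, a4, a5⟩ := hNLI s
  have h2 := h1.2 f x T a1 a2 a4
  rw [a3, a5] at h2
  exact zero_ne_one h2

end Pool.Agent.Helper25.HL
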