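import Pool.Agent.Helper25.HL.Goals3

/-!
# Project HL: the near-level lemma on the Hilbert sum
-/

set_option autoImplicit false

open Filter Topology

noncomputable section

namespace Pool.Agent.Helper25.HL.NXown

open Pool.Agent.Helper25.HL

/-- early index type -/
abbrev TI (P : ℕ → ℕ) (c : ℕ) : Type :=
  (Σ k : Fin c, (Fin (P k) ⊕ Fin (P (k + 1)))) ⊕ Fin (P c)

theorem card_TI (P : ℕ → ℕ) (c : ℕ) : Fintype.card (TI P c) = dim0 P c := by
  simp only [TI, dim0, Fintype.card_sum, Fintype.card_sigma, Fintype.card_fin]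
  rw [Finset.sum_range]

section

variable {P : ℕ → ℕ} (D : ∀ k, Lv (P k) (P (k + 1)))

/-- coordinates of a level as a linear map -/
def prL (k : ℕ) : XX P D →ₗ[ℂ] (Fin (P k) → ℂ) × (Fin (P (k + 1)) → ℂ) :=
  (toPair (D k)).toLinearMap ∘ₗ (lp.evalₗ (fun k => LV (D k)) 2 k)

theorem prL_apply (k : ℕ) (x : XX P D) : prL D k x = pr P D x k := rfl

/-- the early coordinates -/
def evT (s : ℂ) (c : ℕ) : TI P c → (XX P D →ₗ[ℂ] ℂ)
  | Sum.inl ⟨k, Sum.inl a⟩ => (LinearMap.proj a) ∘ₗ (LinearMap.fst ℂ _ _) ∘ₗ prL D k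
  | Sum.inl ⟨k, Sum.inr t⟩ => (LinearMap.proj t) ∘ₗ (LinearMap.snd ℂ _ _) ∘ₗ prL D k
  | Sum.inr a => s • ((LinearMap.proj a) ∘ₗ (LinearMap.fst ℂ _ _) ∘ₗ prL D c)

/-- the arguments -/
def args (s : ℂ) (c : ℕ) (E : TI P c ≃ Fin (dim0 P c)) :
    XX P D →ₗ[ℂ] Arg (dim0 P c) (P (c + 1)) (P (c + 1 + 1)) :=
  (LinearMap.pi fun i => evT D s c (E.symm i)).prod
    ((s • ((LinearMap.snd ℂ _ _) ∘ₗ prL D c)).prod
      ((s • ((LinearMap.fst ℂ _ _) ∘ₗ prL D (c + 1))).prod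
        (s • ((LinearMap.snd ℂ _ _) ∘ₗ prL D (c + 1)))))

theorem sq_smul' {ι : Type} [Fintype ι] (s : ℂ) (z : ι → ℂ) : sq (s • z) = ‖s‖ ^ 2 * sq z := by
  unfold sq
  simp only [Pi.smul_apply, smul_eq_mul, norm_mul, mul_pow, Finset.mul_sum]

theorem sq_args1 (s : ℂ) (c : ℕ) (E : TI P c ≃ Fin (dim0 P c)) (x : XX P D) :
    sq (args D s c E x).1 = ∑ k ∈ Finset.range c, pq2 (pr P D x k) +
      ‖s‖ ^ 2 * sq (pr P D x c).1 := by
  have h1 : sq (args D s c E x).1 = ∑ i : TI P c, ‖evT D s c i x‖ ^ 2 := by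
    unfold sq
    exact E.symm.sum_comp (fun i => ‖evT D s c i x‖ ^ 2)
  rw [h1, Fintype.sum_sum_type, ← sq_smul']
  congr 1
  rw [Fintype.sum_sigma, Finset.sum_range]
  refine Finset.sum_congr rfl fun k _ => ?_
  rw [Fintype.sum_sum_type]
  rfl

theorem sqA_args (s : ℂ) (c : ℕ) (E : TI P c ≃ Fin (dim0 P c)) (x : XX P D) :
    sqA (args D s c E x) = ∑ k ∈ Finset.range c, pq2 (pr P D x k) +
      ‖s‖ ^ 2 * pq2 (pr P D x c) + ‖s‖ ^ 2 * pq2 (pr P D x (c + 1)) := by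
  unfold sqA
  rw [sq_args1]
  have h2 : (args D s c E x).2.1 = s • (pr P D x c).2 := rfl
  have h3 : (args D s c E x).2.2.1 = s • (pr P D x (c + 1)).1 := rfl
  have h4 : (args D s c E x).2.2.2 = s • (pr P D x (c + 1)).2 := rfl
  rw [h2, h3, h4, sq_smul', sq_smul', sq_smul']
  unfold pq2
  ring

end

theorem nx (h1 : S_LD) (_h2 : S_LP2) : S_NX := by
  intro P D c m J₁ K ε R H
  set J := (D c).J with hJdef
  have hJ2 : (D (c + 1)).J = J := H.hJ.symm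
  set th : ℝ := 2 ^ J with hth
  have hth0 : 0 < th := by positivity
  have hth1 : 1 ≤ th := one_le_pow₀ (by norm_num)
  set sr : ℝ := 1 / Real.sqrt th with hsr
  have hsr0 : 0 < sr := by positivity
  have hsr2 : sr ^ 2 = 1 / th := by
    rw [hsr, div_pow, one_pow, Real.sq_sqrt hth0.le]
  set s : ℂ := (sr : ℂ) with hs
  have hsn : ‖s‖ = sr := by rw [hs, Complex.norm_real, Real.norm_of_nonneg hsr0.le]
  have hsn2 : ‖s‖ ^ 2 = 1 / th := by rw [hsn, hsr2]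
  obtain ⟨Cst0, hC0⟩ := H.hnl (dim0 P c) H.hd
  -- coordinates are bounded
  have hpq : ∀ (x : XX P D) k, pq2 (pr P D x k) ≤ 4 ^ (D k).J * ‖x k‖ ^ 2 := fun x k =>
    pq2_le_lnm (D k).σ (D k).J (D k).r (pr P D x k)
  have hxk : ∀ (x : XX P D) k, ‖x k‖ ≤ ‖x‖ := fun x k => lp.norm_apply_le_norm (by norm_num) x k
  let E : TI P c ≃ Fin (dim0 P c) := Fintype.equivFinOfCardEq (card_TI P c)
  set M : ℝ := ∑ k ∈ Finset.range c, (4 : ℝ) ^ (D k).J + 4 ^ (D c).J + 4 ^ (D (c + 1)).J with hM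
  have hM0 : 0 ≤ M := by positivity
  have hargs : ∀ x : XX P D, sqA (args D s c E x) ≤ M * ‖x‖ ^ 2 := by
    intro x
    rw [sqA_args, hM, add_mul, add_mul, Finset.sum_mul]
    have hk : ∀ k, pq2 (pr P D x k) ≤ 4 ^ (D k).J * ‖x‖ ^ 2 := fun k =>
      (hpq x k).trans (by have := hxk x k; gcongr)
    have hs1 : ‖s‖ ^ 2 ≤ 1 := by
      rw [hsn2, div_le_one hth0]; exact hth1
    refine add_le_add (add_le_add (Finset.sum_le_sum fun k _ => hk k) ?_) ?_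
    · calc ‖s‖ ^ 2 * pq2 (pr P D x c) ≤ 1 * pq2 (pr P D x c) := by
            gcongr; exact pq2_nn _
        _ ≤ _ := by rw [one_mul]; exact hk c
    · calc ‖s‖ ^ 2 * pq2 (pr P D x (c + 1)) ≤ 1 * pq2 (pr P D x (c + 1)) := by
            gcongr; exact pq2_nn _
        _ ≤ _ := by rw [one_mul]; exact hk (c + 1)
  set C1 : ℝ := Real.sqrt (|Cst0| * M) with hC1
  refine ⟨C1, Real.sqrt_nonneg _, ?_⟩
  intro N ϖ u hϖ hK hu huc huc1
  -- small levels
  have hsm : ∀ j, lnm (D c).σ J (D c).r (s • pr P D (u j) c) ≤ 1 / 2 ^ J := by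
    intro j
    rw [lnm_smul _ _ (D c).hr, hsn]
    have e1 : lnm (D c).σ J (D c).r (pr P D (u j) c) = ‖u j c‖ := rfl
    rw [e1]
    have e2 : ‖u j c‖ ≤ sr := by
      apply le_of_sq_le_sq _ hsr0.le |> fun h => h
      rw [hsr2]; exact huc j
    calc sr * ‖u j c‖ ≤ sr * sr := by gcongr
      _ = 1 / 2 ^ J := by rw [← pow_two, hsr2]
  have hsm1 : ∀ j, lnm (D (c + 1)).σ J (D (c + 1)).r (s • pr P D (u j) (c + 1)) ≤ 1 / 2 ^ J := by
    intro j
    rw [lnm_smul _ _ (D (c + 1)).hr, hsn]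
    have e1 : lnm (D (c + 1)).σ J (D (c + 1)).r (pr P D (u j) (c + 1)) = ‖u j (c + 1)‖ := by
      rw [← hJ2]; rfl
    rw [e1]
    have e2 : ‖u j (c + 1)‖ ≤ sr := by
      apply le_of_sq_le_sq _ hsr0.le |> fun h => h
      rw [hsr2]; exact huc1 j
    calc sr * ‖u j (c + 1)‖ ≤ sr * sr := by gcongr
      _ = 1 / 2 ^ J := by rw [← pow_two, hsr2]
  have hJ1J : J₁ ≤ J := H.hJ₁'
  have hJ1 : 1 ≤ J := H.hJ₁.trans hJ1J
  have dc : ∀ j, ∃ α : Fin (P (c + 1)) → ℂ,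
      sq (s • (pr P D (u j) c).2 - α) ≤ (2 / 2 ^ J₁) ^ 2 ∧ l1 α ≤ R := by
    intro j
    obtain ⟨_, g⟩ := h1 _ _ (D c).σ J (D c).r (D c).hr _ (hsm j)
    obtain ⟨β, b1, b2⟩ := g J₁ H.hJ₁ hJ1J
    refine ⟨β, le_trans ?_ b1, b2.trans H.hR⟩
    have : pq2 (s • pr P D (u j) c - Gm (D c).σ β) =
        sq (s • (pr P D (u j) c).1 - RV (D c).σ β) + sq (s • (pr P D (u j) c).2 - β) := rfl
    rw [this]
    linarith [sq_nn (s • (pr P D (u j) c).1 - RV (D c).σ β)]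
  have dd : ∀ j, pq2 (s • pr P D (u j) (c + 1)) ≤ 1 := fun j =>
    (h1 _ _ (D (c + 1)).σ J (D (c + 1)).r (D (c + 1)).hr _ (hsm1 j)).1
  have de : ∀ j, ∃ β : Fin (P (c + 1 + 1)) → ℂ,
      pq2 (s • pr P D (u j) (c + 1) - Gm (D (c + 1)).σ β) ≤ (2 / 2 ^ J₁) ^ 2 ∧ l1 β ≤ R := by
    intro j
    obtain ⟨_, g⟩ := h1 _ _ (D (c + 1)).σ J (D (c + 1)).r (D (c + 1)).hr _ (hsm1 j)
    obtain ⟨β, b1, b2⟩ := g J₁ H.hJ₁ hJ1J
    exact ⟨β, b1, b2.trans H.hR'⟩
  have df : ∀ j, ∃ β : Fin (P (c + 1 + 1)) → ℂ,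
      pq2 (s • pr P D (u j) (c + 1) - Gm (D (c + 1)).σ β) ≤ (2 / 2 ^ J) ^ 2 ∧
        l1 β ≤ (P (c + 1) : ℝ) ^ (1 / 16 : ℝ) := by
    intro j
    obtain ⟨_, g⟩ := h1 _ _ (D (c + 1)).σ J (D (c + 1)).r (D (c + 1)).hr _ (hsm1 j)
    obtain ⟨β, b1, b2⟩ := g J hJ1 le_rfl
    refine ⟨β, b1, b2.trans ?_⟩
    have hr := H.hrJ
    rw [hJ2] at hr
    have e1 : Real.sqrt ((D (c + 1)).r J) ≤ (P (c + 1) : ℝ) ^ (1 / 16 : ℝ) := by
      refine (Real.sqrt_le_sqrt hr).trans ?_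
      rw [Real.sqrt_eq_rpow, ← Real.rpow_mul (Nat.cast_nonneg _)]
      norm_num
    have e2 : (2 : ℝ) / 2 ^ J ≤ 1 := by
      rw [div_le_one hth0]
      calc (2 : ℝ) = 2 ^ 1 := by norm_num
        _ ≤ 2 ^ J := pow_le_pow_right₀ (by norm_num) hJ1
    calc 2 / 2 ^ J * Real.sqrt ((D (c + 1)).r J) ≤ 1 * Real.sqrt ((D (c + 1)).r J) := by
          gcongr
      _ ≤ _ := by rw [one_mul]; exact e1
  choose α hα1 hα2 using dc
  choose β hβ1 hβ2 using de
  choose β' hβ'1 hβ'2 using df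
  have hcoord : ∀ j i, ‖(args D s c E (u j)).1 i‖ ≤ P (c + 1) := by
    intro j i
    have base : ∀ k, k ≤ c → Real.sqrt (pq2 (pr P D (u j) k)) ≤ P (c + 1) := by
      intro k hk
      have e1 : pq2 (pr P D (u j) k) ≤ ((2 : ℝ) ^ (D k).J) ^ 2 := by
        refine (hpq (u j) k).trans ?_
        have e2 : ‖u j k‖ ≤ 1 := (hxk (u j) k).trans (hu j)
        have e3 : (4 : ℝ) ^ (D k).J = ((2 : ℝ) ^ (D k).J) ^ 2 := by
          rw [← pow_mul, mul_comm, pow_mul]; norm_num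
        rw [e3]
        calc ((2 : ℝ) ^ (D k).J) ^ 2 * ‖u j k‖ ^ 2 ≤ ((2 : ℝ) ^ (D k).J) ^ 2 * 1 ^ 2 := by gcongr
          _ = _ := by ring
      have e4 : Real.sqrt (pq2 (pr P D (u j) k)) ≤ (2 : ℝ) ^ (D k).J := by
        rw [← Real.sqrt_sq (show (0 : ℝ) ≤ (2 : ℝ) ^ (D k).J by positivity)]
        exact Real.sqrt_le_sqrt e1
      exact e4.trans (by exact_mod_cast H.h2J k hk)
    have b1 : ∀ k (a : Fin (P k)), ‖(pr P D (u j) k).1 a‖ ≤ Real.sqrt (pq2 (pr P D (u j) k)) := by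
      intro k a
      apply Real.le_sqrt_of_sq_le
      have : ‖(pr P D (u j) k).1 a‖ ^ 2 ≤ sq (pr P D (u j) k).1 :=
        Finset.single_le_sum (f := fun a => ‖(pr P D (u j) k).1 a‖ ^ 2)
          (fun _ _ => by positivity) (Finset.mem_univ a)
      unfold pq2
      linarith [sq_nn (pr P D (u j) k).2]
    have b2 : ∀ k (t : Fin (P (k + 1))), ‖(pr P D (u j) k).2 t‖ ≤
        Real.sqrt (pq2 (pr P D (u j) k)) := by
      intro k a
      apply Real.le_sqrt_of_sq_le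
      have : ‖(pr P D (u j) k).2 a‖ ^ 2 ≤ sq (pr P D (u j) k).2 :=
        Finset.single_le_sum (f := fun a => ‖(pr P D (u j) k).2 a‖ ^ 2)
          (fun _ _ => by positivity) (Finset.mem_univ a)
      unfold pq2
      linarith [sq_nn (pr P D (u j) k).1]
    have hi : (args D s c E (u j)).1 i = evT D s c (E.symm i) (u j) := rfl
    rw [hi]
    rcases E.symm i with ⟨k, a | t⟩ | a
    · exact (b1 k a).trans (base k k.2.le)
    · exact (b2 k t).trans (base k k.2.le)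
    · have : evT D s c (Sum.inr a) (u j) = s * (pr P D (u j) c).1 a := rfl
      rw [this, norm_mul]
      have hs1 : ‖s‖ ≤ 1 := by
        rw [← sq_le_one_iff₀ (norm_nonneg _), hsn2, div_le_one hth0]; exact hth1
      calc ‖s‖ * ‖(pr P D (u j) c).1 a‖ ≤ 1 * ‖(pr P D (u j) c).1 a‖ := by gcongr
        _ ≤ _ := by rw [one_mul]; exact (b1 c a).trans (base c le_rfl)
  let sys : Sys (D (c + 1)).σ K R (2 / 2 ^ J₁) (2 ^ J) (dim0 P c) N :=
    { ϖ := ϖ
      e := fun j => (args D s c E (u j)).1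
      A := fun j => (args D s c E (u j)).2.1
      u := fun j => (args D s c E (u j)).2.2.1
      w := fun j => (args D s c E (u j)).2.2.2
      α := α
      β := β
      β' := β'
      hϖ := hϖ
      hK := hK
      he := hcoord
      hA := hα1
      hα := hα2
      huw := dd
      hβ := hβ1
      hβR := hβ2
      hβ' := hβ'1
      hβ'R := hβ'2 }
  obtain ⟨O⟩ := hC0 N sys
  have harg : ∀ i, ((sys.e i, sys.A i, sys.u i, sys.w i) : Arg (dim0 P c) (P (c + 1)) (P (c + 1 + 1)))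
      = args D s c E (u i) := fun i => rfl
  have hGb : ∀ j (x : XX P D), ‖O.g j (args D s c E x)‖ ≤ C1 * ‖x‖ := by
    intro j x
    have e1 := O.hg j (args D s c E x)
    have e2 : ‖O.g j (args D s c E x)‖ ^ 2 ≤ |Cst0| * M * ‖x‖ ^ 2 := by
      refine e1.trans ?_
      calc Cst0 * sqA (args D s c E x) ≤ |Cst0| * sqA (args D s c E x) := by
            gcongr
            · unfold sqA
              have := sq_nn (args D s c E x).1
              have := sq_nn (args D s c E x).2.1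
              have := sq_nn (args D s c E x).2.2.1
              have := sq_nn (args D s c E x).2.2.2
              linarith
            · exact le_abs_self _
        _ ≤ |Cst0| * (M * ‖x‖ ^ 2) := by gcongr; exact hargs x
        _ = _ := by ring
    calc ‖O.g j (args D s c E x)‖ = Real.sqrt (‖O.g j (args D s c E x)‖ ^ 2) :=
          (Real.sqrt_sq (norm_nonneg _)).symm
      _ ≤ Real.sqrt (|Cst0| * M * ‖x‖ ^ 2) := Real.sqrt_le_sqrt e2
      _ = C1 * ‖x‖ := by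
          rw [Real.sqrt_mul (by positivity), Real.sqrt_sq (norm_nonneg _)]
  let G : Fin N → (XX P D →L[ℂ] ℂ) := fun j =>
    ((O.g j) ∘ₗ (args D s c E)).mkContinuous C1 (hGb j)
  have hGapp : ∀ j x, G j x = O.g j (args D s c E x) := fun j x => rfl
  refine ⟨G, O.n, ⟨O.B, O.C, O.hB, O.hC⟩, O.c, ?_, O.hn, ?_, ?_, O.hc, ?_⟩
  · intro j
    exact LinearMap.mkContinuous_norm_le _ (Real.sqrt_nonneg _) _
  · intro j i
    exact O.hBC j i
  · have h3 := O.he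
    refine le_trans (le_of_eq ?_) h3
    refine Finset.sum_congr rfl fun i _ => ?_
    congr 1
    have e1 : (args D s c E (u i - ∑ j, ((ϖ j : ℂ) * G j (u i)) • u j)) =
        args D s c E (u i) - ∑ j, ((ϖ j : ℂ) * G j (u i)) • args D s c E (u j) := by
      rw [map_sub, map_sum]
      simp only [map_smul]
    have e2 := sq_args1 D s c E (u i - ∑ j, ((ϖ j : ℂ) * G j (u i)) • u j)
    have e3 : sq (args D s c E (u i - ∑ j, ((ϖ j : ℂ) * G j (u i)) • u j)).2.1 =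
        ‖s‖ ^ 2 * sq (pr P D (u i - ∑ j, ((ϖ j : ℂ) * G j (u i)) • u j) c).2 := by
      rw [← sq_smul']; rfl
    have e4 : ∑ k ∈ Finset.range c, pq2 (pr P D (u i - ∑ j, ((ϖ j : ℂ) * G j (u i)) • u j) k) +
        1 / 2 ^ (D c).J * pq2 (pr P D (u i - ∑ j, ((ϖ j : ℂ) * G j (u i)) • u j) c) =
        sq (args D s c E (u i - ∑ j, ((ϖ j : ℂ) * G j (u i)) • u j)).1 +
        sq (args D s c E (u i - ∑ j, ((ϖ j : ℂ) * G j (u i)) • u j)).2.1 := by
      rw [e2, e3, hsn2]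
      unfold pq2
      ring
    rw [e4, e1]
    have f1 : ∀ (v : Fin N → Arg (dim0 P c) (P (c + 1)) (P (c + 1 + 1))),
        (∑ j, v j).1 = ∑ j, (v j).1 := fun v => Prod.fst_sum
    have f2 : ∀ (v : Fin N → Arg (dim0 P c) (P (c + 1)) (P (c + 1 + 1))),
        (∑ j, v j).2.1 = ∑ j, (v j).2.1 := fun v => by rw [Prod.snd_sum, Prod.fst_sum]
    rw [Prod.fst_sub, Prod.snd_sub, Prod.fst_sub, f1, f2]
    rfl
  · have h3 := O.hy
    refine le_trans (le_of_eq ?_) h3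
    refine Finset.sum_congr rfl fun i _ => ?_
    congr 1
    have e1 : (args D s c E (∑ j, ((ϖ j : ℂ) * G j (u i)) • u j)) =
        ∑ j, ((ϖ j : ℂ) * G j (u i)) • args D s c E (u j) := by
      rw [map_sum]
      simp only [map_smul]
    have f3 : ∀ (v : Fin N → Arg (dim0 P c) (P (c + 1)) (P (c + 1 + 1))),
        (∑ j, v j).2.2.1 = ∑ j, (v j).2.2.1 := fun v => by
      rw [Prod.snd_sum, Prod.snd_sum, Prod.fst_sum]
    have f4 : ∀ (v : Fin N → Arg (dim0 P c) (P (c + 1)) (P (c + 1 + 1))),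
        (∑ j, v j).2.2.2 = ∑ j, (v j).2.2.2 := fun v => by
      rw [Prod.snd_sum, Prod.snd_sum, Prod.snd_sum]
    have g1 : (args D s c E (∑ j, ((ϖ j : ℂ) * G j (u i)) • u j)).2.2.1 =
        s • (pr P D (∑ j, ((ϖ j : ℂ) * G j (u i)) • u j) (c + 1)).1 := rfl
    have g2 : (args D s c E (∑ j, ((ϖ j : ℂ) * G j (u i)) • u j)).2.2.2 =
        s • (pr P D (∑ j, ((ϖ j : ℂ) * G j (u i)) • u j) (c + 1)).2 := rfl
    rw [e1, f3] at g1
    rw [e1, f4] at g2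
    have k1 : (∑ j, ((sys.ϖ j : ℂ) * O.g j (sys.e i, sys.A i, sys.u i, sys.w i)) • sys.u j) =
        s • (pr P D (∑ j, ((ϖ j : ℂ) * G j (u i)) • u j) (c + 1)).1 := by
      rw [← g1]; rfl
    have k2 : (∑ j, ((sys.ϖ j : ℂ) * O.g j (sys.e i, sys.A i, sys.u i, sys.w i)) • sys.w j) =
        s • (pr P D (∑ j, ((ϖ j : ℂ) * G j (u i)) • u j) (c + 1)).2 := by
      rw [← g2]; rfl
    rw [k1, k2]
    rfl

end Pool.Agent.Helper25.HL.NXown
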