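import Pool.Agent.Helper25.HL.Lev

/-!
# Project HL: goals on level norms, on the Hilbert sum, and the cut estimate
-/

set_option autoImplicit false

open Filter Topology

noncomputable section

namespace Pool.Agent.Helper25.HL

/-! ### one level -/

/-- LB: upper bound of the level norm -/
def S_LB : Prop :=
  ∀ (p q : ℕ) (σ : Fin p → Fin q → Bool) (J : ℕ) (r : ℕ → ℝ), (∀ j, 0 < r j) →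
    ∀ z, (lnm σ J r z) ^ 2 ≤ 4 / 3 * pq2 z

/-- LG: graph vectors are cheap -/
def S_LG : Prop :=
  ∀ (p q : ℕ) (σ : Fin p → Fin q → Bool) (J : ℕ) (r : ℕ → ℝ), 1 ≤ p → (∀ j, 0 < r j) →
    (∀ j, 1 ≤ j → j ≤ J → (8 : ℝ) ^ j ≤ r j) →
    ∀ β : Fin q → ℂ, lnm σ J r (Gm σ β) ≤ 2 / 2 ^ J * l1 β

/-- LD: decompositions of vectors of small norm -/
def S_LD : Prop :=
  ∀ (p q : ℕ) (σ : Fin p → Fin q → Bool) (J : ℕ) (r : ℕ → ℝ), (∀ j, 0 < r j) →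
    ∀ z, lnm σ J r z ≤ 1 / 2 ^ J → pq2 z ≤ 1 ∧ ∀ j, 1 ≤ j → j ≤ J →
      ∃ β : Fin q → ℂ, pq2 (z - Gm σ β) ≤ (2 / 2 ^ j) ^ 2 ∧ l1 β ≤ 2 / 2 ^ j * Real.sqrt (r j)

/-- LF: functionals on one level -/
def S_LF : Prop :=
  ∀ (p q : ℕ) (σ : Fin p → Fin q → Bool) (J : ℕ) (r : ℕ → ℝ), (∀ j, 0 < r j) →
    ∀ (f₁ : Fin p → ℝ) (f₂ : Fin q → ℝ) (M : ℝ), 0 ≤ M →
    (∀ t, |∑ a, f₁ a * Rm σ a t + f₂ t| ≤ M) → ∀ z : (Fin p → ℂ) × (Fin q → ℂ),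
    (1 ≤ J → ‖∑ a, (f₁ a : ℂ) * z.1 a + ∑ t, (f₂ t : ℂ) * z.2 t‖ ≤
      Real.sqrt (∑ a, f₁ a ^ 2 + ∑ t, f₂ t ^ 2 + r J * M ^ 2) * lnm σ J r z) ∧
    (J = 0 → ‖∑ a, (f₁ a : ℂ) * z.1 a + ∑ t, (f₂ t : ℂ) * z.2 t‖ ≤
      Real.sqrt (∑ a, f₁ a ^ 2 + ∑ t, f₂ t ^ 2) * lnm σ J r z)

/-- matrices of rank at most `n`, in factorised form with norm at most 2 -/
structure Fac (n N : ℕ) where
  B : Fin n → Fin N → ℂ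
  C : Fin n → Fin N → ℂ
  hB : ∀ v : Fin N → ℂ, ∑ m, ‖∑ j, B m j * v j‖ ^ 2 ≤ ∑ j, ‖v j‖ ^ 2
  hC : ∀ v : Fin N → ℂ, ∑ m, ‖∑ i, C m i * v i‖ ^ 2 ≤ 4 * ∑ i, ‖v i‖ ^ 2

/-- the coefficients -/
def Fac.a {n N : ℕ} (F : Fac n N) (j i : Fin N) : ℂ := ∑ m, F.B m j * F.C m i

/-- H0: the matrix acts on Euclidean vectors -/
def S_H0 : Prop :=
  ∀ (n N : ℕ) (F : Fac n N) (p q : ℕ) (z : Fin N → (Fin p → ℂ) × (Fin q → ℂ)),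
    ∑ i, pq2 (∑ j, F.a j i • z j) ≤ 4 * ∑ j, pq2 (z j)

/-- H1: the matrix acts between the functionals `KK` -/
def S_H1 : Prop :=
  ∀ (n N : ℕ) (F : Fac n N) (p q : ℕ) (σ : Fin p → Fin q → Bool)
    (z : Fin N → (Fin p → ℂ) × (Fin q → ℂ)) (ρ ρ' : ℝ), 0 < ρ → 0 < ρ' → (n : ℝ) ^ 2 * ρ ≤ ρ' →
    ∑ i, (KK σ ρ' (∑ j, F.a j i • z j)) ^ 2 ≤ 4 * ∑ j, (KK σ ρ (z j)) ^ 2

/-- HA: the matrix acts on the level norm -/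
def S_HA : Prop :=
  ∀ (n N : ℕ) (F : Fac n N) (p q : ℕ) (σ : Fin p → Fin q → Bool) (J : ℕ) (r : ℕ → ℝ)
    (z : Fin N → (Fin p → ℂ) × (Fin q → ℂ)), (∀ j, 0 < r j) →
    (∀ j, 1 ≤ j → j < J → (n : ℝ) ^ 2 * r j ≤ r (j + 1)) →
    ∑ i, (lnm σ J r (∑ j, F.a j i • z j)) ^ 2 ≤ 20 * ∑ j, (lnm σ J r (z j)) ^ 2

/-- HB: the matrix acts on the level norm, with the loss `4 ^ J₁` -/
def S_HB : Prop :=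
  ∀ (n N : ℕ) (F : Fac n N) (p q : ℕ) (σ : Fin p → Fin q → Bool) (J₁ J : ℕ) (r : ℕ → ℝ)
    (z : Fin N → (Fin p → ℂ) × (Fin q → ℂ)), (∀ j, 0 < r j) → J₁ ≤ J →
    (∀ j, J₁ + 1 ≤ j → j < J → (n : ℝ) ^ 2 * r j ≤ r (j + 1)) →
    ∑ i, (lnm σ J r (∑ j, F.a j i • z j)) ^ 2 ≤ 27 * 4 ^ J₁ * ∑ j, (lnm σ J r (z j)) ^ 2

/-! ### the Hilbert sum -/

section sums

variable (P : ℕ → ℕ) (D : ∀ k, Lv (P k) (P (k + 1)))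

/-- embedding of a level -/
def emb (k : ℕ) : LV (D k) →L[ℂ] XX P D :=
  lp.singleContinuousLinearMap ℂ (fun k => LV (D k)) 2 k

/-- coordinates of the level `k` -/
def pr (x : XX P D) (k : ℕ) : (Fin (P k) → ℂ) × (Fin (P (k + 1)) → ℂ) := toPair (D k) (x k)

/-- the projection onto the levels below `c` -/
def Qb (c : ℕ) : XX P D →L[ℂ] XX P D :=
  ∑ k ∈ Finset.range c, (emb P D k).comp (lp.evalCLM ℂ (fun k => LV (D k)) 2 k)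

end sums

/-- LP2: norm of a Hilbert sum -/
def S_LP2 : Prop :=
  ∀ (P : ℕ → ℕ) (D : ∀ k, Lv (P k) (P (k + 1))) (x : XX P D),
    HasSum (fun k => ‖x k‖ ^ 2) (‖x‖ ^ 2) ∧
    HasSum (fun k => emb P D k (x k)) x ∧ ∀ k (z : LV (D k)), ‖emb P D k z‖ = ‖z‖

/-- LPD: restrictions of a functional to the levels -/
def S_LPD : Prop :=
  ∀ (P : ℕ → ℕ) (D : ∀ k, Lv (P k) (P (k + 1))) (f : XX P D →L[ℂ] ℂ),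
    Summable (fun k => ‖f.comp (emb P D k)‖ ^ 2) ∧
    ∑' k, ‖f.comp (emb P D k)‖ ^ 2 ≤ ‖f‖ ^ 2

/-- SPL: splitting of a pairing at a cut -/
def S_SPL : Prop :=
  ∀ (P : ℕ → ℕ) (D : ∀ k, Lv (P k) (P (k + 1))) (f : XX P D →L[ℂ] ℂ) (c : ℕ) (x y : XX P D),
    ‖f (Qb P D (c + 1) x - y)‖ ≤
      ‖f‖ * Real.sqrt (∑ k ∈ Finset.range c, ‖(x - y) k‖ ^ 2) +
      ‖f.comp (emb P D c)‖ * ‖(x - y) c‖ +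
      ‖f.comp (emb P D (c + 1))‖ * ‖y (c + 1)‖ +
      ‖f‖ * Real.sqrt (∑' k, if c + 1 < k then ‖y k‖ ^ 2 else 0)

/-- number of early coordinates at the cut `c` -/
def dim0 (P : ℕ → ℕ) (c : ℕ) : ℕ := ∑ k ∈ Finset.range c, (P k + P (k + 1)) + P c

/-- conditions on the levels at a cut `c`, whose window ends before `m` -/
structure CutH (P : ℕ → ℕ) (D : ∀ k, Lv (P k) (P (k + 1))) (c m J₁ : ℕ) (K ε R : ℝ) :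
    Prop where
  hP : 1 ≤ P (c + 1)
  hJ : (D c).J = (D (c + 1)).J
  hJ₁ : 1 ≤ J₁
  hJ₁' : J₁ ≤ (D c).J
  hr8 : ∀ j, 1 ≤ j → j ≤ (D (c + 1)).J → (8 : ℝ) ^ j ≤ (D (c + 1)).r j
  hR : 2 / 2 ^ J₁ * Real.sqrt ((D c).r J₁) ≤ R
  hR' : 2 / 2 ^ J₁ * Real.sqrt ((D (c + 1)).r J₁) ≤ R
  hrJ : (D (c + 1)).r (D (c + 1)).J ≤ (P (c + 1) : ℝ) ^ (1 / 8 : ℝ)
  hnl : NLP (D (c + 1)).σ K ε R (2 / 2 ^ J₁) (2 ^ (D c).J)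
  hd : (dim0 P c) ^ 8 ≤ P (c + 1)
  h2J : ∀ k, k ≤ c → 2 ^ (D k).J ≤ P (c + 1)
  hH1 : ∀ k, c + 1 < k → k < m → J₁ ≤ (D k).J ∧ ∀ j, J₁ + 1 ≤ j → j < (D k).J →
    (P (c + 1) : ℝ) ^ 4 * (D k).r j ≤ (D k).r (j + 1)
  hH2 : ∀ k, c + 1 < k → m ≤ k → ∀ j, 1 ≤ j → j < (D k).J →
    (P (c + 1) : ℝ) ^ 4 * (D k).r j ≤ (D k).r (j + 1)
  hK : 1 ≤ K
  hε : 0 ≤ ε
  hR0 : 0 ≤ R

/-- LAT: the matrix acts on the late levels -/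
def S_LAT : Prop :=
  ∀ (P : ℕ → ℕ) (D : ∀ k, Lv (P k) (P (k + 1))) (c m J₁ : ℕ) (K ε R : ℝ),
    CutH P D c m J₁ K ε R → ∀ (n N : ℕ) (F : Fac n N), n ≤ (P (c + 1)) ^ 2 →
    ∀ z : Fin N → XX P D,
      ∑ i, (∑' k, if c + 1 < k then ‖(∑ j, F.a j i • z j) k‖ ^ 2 else 0) ≤
        27 * 4 ^ J₁ * ∑ j, ∑ k ∈ Finset.Ioo (c + 1) m, ‖z j k‖ ^ 2 +
        20 * ∑ j, ∑' k, if c + 1 < k ∧ m ≤ k then ‖z j k‖ ^ 2 else 0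

/-- NX: the near-level lemma transported to the Hilbert sum -/
def S_NX : Prop :=
  ∀ (P : ℕ → ℕ) (D : ∀ k, Lv (P k) (P (k + 1))) (c m J₁ : ℕ) (K ε R : ℝ),
    CutH P D c m J₁ K ε R → ∃ Cst : ℝ, 0 ≤ Cst ∧ ∀ (N : ℕ) (ϖ : Fin N → ℝ)
      (u : Fin N → XX P D), (∀ j, 0 ≤ ϖ j) → ∑ j, ϖ j ≤ K → (∀ j, ‖u j‖ ≤ 1) →
      (∀ j, ‖u j c‖ ^ 2 ≤ 1 / 2 ^ (D c).J) → (∀ j, ‖u j (c + 1)‖ ^ 2 ≤ 1 / 2 ^ (D c).J) →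
      ∃ (G : Fin N → (XX P D →L[ℂ] ℂ)) (n : ℕ) (F : Fac n N)
        (b : Fin N → Fin (P (c + 1 + 1)) → ℂ),
        (∀ j, ‖G j‖ ≤ Cst) ∧ n ≤ (P (c + 1)) ^ 2 ∧
        (∀ j i, ((Real.sqrt (ϖ j) * Real.sqrt (ϖ i) : ℝ) : ℂ) * G j (u i) = F.a j i) ∧
        ∑ i, ϖ i * (∑ k ∈ Finset.range c,
            pq2 (pr P D (u i - ∑ j, ((ϖ j : ℂ) * G j (u i)) • u j) k) +
          1 / 2 ^ (D c).J * pq2 (pr P D (u i - ∑ j, ((ϖ j : ℂ) * G j (u i)) • u j) c)) ≤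
          ε ^ 2 ∧
        (∀ i, l1 (b i) ≤ R) ∧
        ∑ i, ϖ i * pq2 (((1 / Real.sqrt (2 ^ (D c).J) : ℝ) : ℂ) •
            pr P D (∑ j, ((ϖ j : ℂ) * G j (u i)) • u j) (c + 1) - Gm (D (c + 1)).σ (b i)) ≤
          ε ^ 2

/-- CN: the cut estimate for finite normalised systems -/
def S_CN : Prop :=
  ∀ (P : ℕ → ℕ) (D : ∀ k, Lv (P k) (P (k + 1))) (c m J₁ : ℕ) (K ε R : ℝ),
    CutH P D c m J₁ K ε R → ∃ Cst : ℝ, 0 ≤ Cst ∧ ∀ (N : ℕ) (ϖ : Fin N → ℝ)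
      (u : Fin N → XX P D) (f : Fin N → (XX P D →L[ℂ] ℂ)), (∀ j, 0 ≤ ϖ j) → ∑ j, ϖ j ≤ K →
      (∀ j, ‖u j‖ ≤ 1) → (∀ j, ‖f j‖ ≤ 1) → ∑ j, ϖ j * ‖f j‖ ^ 2 ≤ 1 →
      (∀ j, ‖u j c‖ ^ 2 ≤ 1 / 2 ^ (D c).J) → (∀ j, ‖u j (c + 1)‖ ^ 2 ≤ 1 / 2 ^ (D c).J) →
      (∀ j, ‖(f j).comp (emb P D c)‖ ^ 2 ≤ 1 / 2 ^ (D c).J) →
      (∀ j, ‖(f j).comp (emb P D (c + 1))‖ ^ 2 ≤ 1 / 2 ^ (D c).J) →
      ∃ G : Fin N → (XX P D →L[ℂ] ℂ), (∀ j, ‖G j‖ ≤ Cst) ∧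
        ‖∑ i, (ϖ i : ℂ) * f i (Qb P D (c + 1) (u i) - ∑ j, ((ϖ j : ℂ) * G j (u i)) • u j)‖ ≤
          4 * Real.sqrt K * ε + 2 * K * R / 2 ^ (D c).J +
          Real.sqrt (27 * 4 ^ J₁ * ∑ j, ϖ j * ∑ k ∈ Finset.Ioo (c + 1) m, ‖u j k‖ ^ 2 +
            20 * ∑ j, ϖ j * ∑' k, if c + 1 < k ∧ m ≤ k then ‖u j k‖ ^ 2 else 0)

/-- the mass of a representation at the level `k` -/
def mass (P : ℕ → ℕ) (D : ∀ k, Lv (P k) (P (k + 1))) (ω : ℕ → ℝ) (u : ℕ → XX P D)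
    (f : ℕ → (XX P D →L[ℂ] ℂ)) (k : ℕ) : ℝ :=
  ∑' j, ω j * (‖u j k‖ ^ 2 + ‖(f j).comp (emb P D k)‖ ^ 2)

/-- normalised nuclear representations of operators vanishing on their own vectors -/
structure NRep (P : ℕ → ℕ) (D : ∀ k, Lv (P k) (P (k + 1))) (ω : ℕ → ℝ) (u : ℕ → XX P D)
    (f : ℕ → (XX P D →L[ℂ] ℂ)) : Prop where
  hω : ∀ j, 0 ≤ ω j
  hs : Summable ω
  h1 : ∑' j, ω j ≤ 1
  hu : ∀ j, ‖u j‖ ≤ 1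
  hf : ∀ j, ‖f j‖ ≤ 1
  h0 : ∀ j, ∑' i, ((ω i : ℂ) * f i (u j)) • u i = 0

/-- MS: the masses are summable -/
def S_MS : Prop :=
  ∀ (P : ℕ → ℕ) (D : ∀ k, Lv (P k) (P (k + 1))) (ω : ℕ → ℝ) (u : ℕ → XX P D)
    (f : ℕ → (XX P D →L[ℂ] ℂ)), NRep P D ω u f →
    (∀ k, 0 ≤ mass P D ω u f k) ∧
    (∀ k, Summable (fun j => ω j * (‖u j k‖ ^ 2 + ‖(f j).comp (emb P D k)‖ ^ 2))) ∧
    Summable (mass P D ω u f) ∧ ∑' k, mass P D ω u f k ≤ 2 ∧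
    (∀ S : Set ℕ, Summable (fun j => ω j * ∑' k, S.indicator (fun k => ‖u j k‖ ^ 2) k) ∧
      ∑' j, ω j * ∑' k, S.indicator (fun k => ‖u j k‖ ^ 2) k ≤
        ∑' k, S.indicator (mass P D ω u f) k)

/-- CU: the cut estimate -/
def S_CU : Prop :=
  ∀ (P : ℕ → ℕ) (D : ∀ k, Lv (P k) (P (k + 1))) (c m J₁ : ℕ) (K ε R : ℝ), 0 ≤ K →
    CutH P D c m J₁ (1 + K) ε R → ∀ (ω : ℕ → ℝ) (u : ℕ → XX P D)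
      (f : ℕ → (XX P D →L[ℂ] ℂ)), NRep P D ω u f →
      mass P D ω u f c + mass P D ω u f (c + 1) ≤ K / 2 ^ (D c).J →
      ‖∑' i, (ω i : ℂ) * f i (Qb P D (c + 1) (u i))‖ ≤
        4 * Real.sqrt (1 + K) * ε + 2 * (1 + K) * R / 2 ^ (D c).J +
        Real.sqrt (27 * 4 ^ J₁ * ∑ k ∈ Finset.Ioo (c + 1) m, mass P D ω u f k +
          20 * ∑' k, if c + 1 < k ∧ m ≤ k then mass P D ω u f k else 0)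

/-- the windows of the construction -/
structure Win (P : ℕ → ℕ) (D : ∀ k, Lv (P k) (P (k + 1))) where
  a : ℕ → ℕ
  b : ℕ → ℕ
  J₁ : ℕ → ℕ
  K : ℕ → ℝ
  ε : ℕ → ℝ
  R : ℕ → ℝ
  η : ℕ → ℝ
  hab : ∀ i, a i + 1 < b i
  hba : ∀ i, b i ≤ a (i + 1)
  hK : ∀ i, 0 ≤ K i
  hη : ∀ i, 0 < η i
  hcut : ∀ i c, a i ≤ c → c + 1 < b i → CutH P D c (b i) (J₁ i) (1 + K i) (ε i) (R i)
  hJw : ∀ i k, a i ≤ k → k < b i → (D k).J = (D (a i)).J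
  hlen : ∀ i, η i * 2 ^ (D (a i)).J + 1 + a i ≤ b i
  hdiv : ¬ Summable (fun i => η i * K i)
  hlim1 : Tendsto (fun i => (4 : ℝ) ^ (J₁ i) * (η i * K i)) atTop (𝓝 0)
  hlim2 : Tendsto (fun i => Real.sqrt (1 + K i) * ε i) atTop (𝓝 0)
  hlim3 : Tendsto (fun i => (1 + K i) * R i / 2 ^ (D (a i)).J) atTop (𝓝 0)

/-- QL: the truncated traces converge to the trace -/
def S_QL : Prop :=
  ∀ (P : ℕ → ℕ) (D : ∀ k, Lv (P k) (P (k + 1))) (ω : ℕ → ℝ) (u : ℕ → XX P D)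
    (f : ℕ → (XX P D →L[ℂ] ℂ)), NRep P D ω u f →
    Tendsto (fun c => ∑' i, (ω i : ℂ) * f i (Qb P D (c + 1) (u i))) atTop
      (𝓝 (∑' i, (ω i : ℂ) * f i (u i)))

/-- PG: the pigeonhole argument: traces vanish -/
def S_PG : Prop :=
  ∀ (P : ℕ → ℕ) (D : ∀ k, Lv (P k) (P (k + 1))), Win P D →
    ∀ (ω : ℕ → ℝ) (u : ℕ → XX P D) (f : ℕ → (XX P D →L[ℂ] ℂ)), NRep P D ω u f →
      ∑' i, (ω i : ℂ) * f i (u i) = 0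

end Pool.Agent.Helper25.HL
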