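import Pool.Agent.Helper25.HL.NLAll
import Pool.Agent.Helper25.HL.Concl
import Pool.Agent.Helper3.HL.LB
import Pool.Agent.Helper69.HL.LG
import Pool.Agent.Helper96.HL.LD
import Pool.Agent.Helper18.HL.LF
import Pool.Agent.Helper18.HL.H0
import Pool.Agent.Helper53.HL.H1
import Pool.Agent.Helper68.HL.HA
import Pool.Agent.Helper94.HL.HB
import Pool.Agent.Helper86.HL.LP2
import Pool.Agent.Helper22.HL.LPD
import Pool.Agent.Helper86.HL.SPL
import Pool.Agent.Helper18.HL.LAT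
import Pool.Agent.Helper25.HL.NXown
import Pool.Agent.Helper93.HL.CN
import Pool.Agent.Helper81.HL.MS
import Pool.Agent.Helper13.HL.CU
import Pool.Agent.Helper56.HL.QL
import Pool.Agent.Helper33.HL.PG
import Pool.Agent.Helper94.HL.DF
import Pool.Agent.Helper53.HL.RP0
import Pool.Agent.Helper16.HL.FN
import Pool.Agent.Helper39.HL.RP1
import Pool.Agent.Helper96.HL.NUC
import Pool.Agent.Helper50.HL.TSQ
import Pool.Agent.Helper99.HL.EIG
import Pool.Agent.Helper54.HL.PS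
import Pool.Agent.Helper13.HL.PQ
import Pool.Agent.Helper93.HL.PO
import Pool.Agent.Helper74.HL.LVX
import Pool.Agent.Helper18.HL.CC
import Pool.Agent.Helper85.HL.SS
import Pool.Agent.Helper59.HL.HAP
import Pool.Agent.Helper27.HL.NLI

/-!
# Project HL: all parts
-/

set_option autoImplicit false

open Filter Topology

noncomputable section

namespace Pool.Agent.Helper25.HL

theorem h_lp2 : S_LP2 := Pool.Agent.Helper86.HL.lp2
theorem h_h0 : S_H0 := Pool.Agent.Helper18.HL.h0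
theorem h_h1 : S_H1 := Pool.Agent.Helper53.HL.h1 h_h0
theorem h_lb : S_LB := Pool.Agent.Helper3.HL.lb
theorem h_lg : S_LG := Pool.Agent.Helper69.HL.lg h_rl
theorem h_lat : S_LAT := Pool.Agent.Helper18.HL.lat (Pool.Agent.Helper68.HL.ha h_h0 h_h1)
  (Pool.Agent.Helper94.HL.hb h_h0 h_h1) h_lp2
theorem h_nx : S_NX := NXown.nx Pool.Agent.Helper96.HL.ld h_lp2
theorem h_cn : S_CN := Pool.Agent.Helper93.HL.cn h_nx Pool.Agent.Helper86.HL.spl h_lat h_lb h_lg
theorem h_ms : S_MS := Pool.Agent.Helper81.HL.ms h_lp2 Pool.Agent.Helper22.HL.lpd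
theorem h_cu : S_CU := Pool.Agent.Helper13.HL.cu h_cn h_ms h_lp2
theorem h_pg : S_PG := Pool.Agent.Helper33.HL.pg h_ms h_cu (Pool.Agent.Helper56.HL.ql h_lp2)
theorem h_rp1 : S_RP1 := Pool.Agent.Helper39.HL.rp1 Pool.Agent.Helper94.HL.df
  (Pool.Agent.Helper16.HL.fn Pool.Agent.Helper18.HL.lf h_lp2) h_lg h_lb h_lp2
theorem h_nli : S_NLI := Pool.Agent.Helper27.HL.nli Pool.Agent.Helper53.HL.rp0 h_rp1
  Pool.Agent.Helper96.HL.nuc (Pool.Agent.Helper50.HL.tsq h_lp2) Pool.Agent.Helper99.HL.eig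
theorem h_sc : S_SC := sc h_nl Pool.Agent.Helper54.HL.ps Pool.Agent.Helper13.HL.pq
  (Pool.Agent.Helper93.HL.po h_nl) Pool.Agent.Helper74.HL.lvx Pool.Agent.Helper18.HL.cc
  Pool.Agent.Helper85.HL.ss

end Pool.Agent.Helper25.HL
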