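import Mathlib

/-!
# A space with the hereditary approximation property for which the Lidskii formula fails
(MP_03bcbb_an, frozen statement S03696).  Definitions and goals of project HL, part 1:
the finite-dimensional core.
-/

set_option autoImplicit false

open Filter Topology

noncomputable section

namespace Pool.Agent.Helper25.HL

/-- square of the Euclidean norm -/
def sq {ι : Type} [Fintype ι] (z : ι → ℂ) : ℝ := ∑ t, ‖z t‖ ^ 2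

/-- the `l1` norm -/
def l1 {ι : Type} [Fintype ι] (z : ι → ℂ) : ℝ := ∑ t, ‖z t‖

/-- inner product, linear on the right -/
def ip {ι : Type} [Fintype ι] (x y : ι → ℂ) : ℂ := ∑ t, (starRingEnd ℂ) (x t) * y t

/-- entries of the code: signs divided by the square root of the number of rows -/
def Rm {p q : ℕ} (σ : Fin p → Fin q → Bool) (a : Fin p) (t : Fin q) : ℝ :=
  (if σ a t then 1 else -1) / Real.sqrt p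

/-- the code as a linear map -/
def RV {p q : ℕ} (σ : Fin p → Fin q → Bool) : (Fin q → ℂ) →ₗ[ℂ] (Fin p → ℂ) where
  toFun β := fun a => ∑ t, (Rm σ a t : ℂ) * β t
  map_add' x y := by
    funext a
    simp [mul_add, Finset.sum_add_distrib]
  map_smul' c x := by
    funext a
    simp only [Pi.smul_apply, smul_eq_mul, RingHom.id_apply, Finset.mul_sum]
    refine Finset.sum_congr rfl fun t _ => by ring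

/-- restriction of a vector to a set of coordinates -/
def res {q : ℕ} (S : Finset (Fin q)) (β : Fin q → ℂ) : Fin q → ℂ :=
  fun t => if t ∈ S then β t else 0

/-- Gaussian integer vectors with `l1` size at most `Z` -/
def GI (Z : ℕ) {q : ℕ} (β : Fin q → ℂ) : Prop :=
  ∃ a b : Fin q → ℤ, (∀ t, β t = (a t : ℂ) + (b t : ℂ) * Complex.I) ∧
    ∑ t, (|a t| + |b t|) ≤ (Z : ℤ)

/-- Gaussian integer vectors with entries bounded by `B` -/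
def GB (B : ℕ) {d : ℕ} (β : Fin d → ℂ) : Prop :=
  ∃ a b : Fin d → ℤ, (∀ t, β t = (a t : ℂ) + (b t : ℂ) * Complex.I) ∧
    ∀ t, |a t| ≤ (B : ℤ) ∧ |b t| ≤ (B : ℤ)

/-- the vectors `γ i` have pairwise disjoint supports -/
def Disj {N q : ℕ} (γ : Fin N → Fin q → ℂ) : Prop :=
  ∀ i j, i ≠ j → ∀ t, γ i t = 0 ∨ γ j t = 0

/-- the matrix `R_S R_S^*` -/
def XS {p q : ℕ} (σ : Fin p → Fin q → Bool) (S : Finset (Fin q)) : Matrix (Fin p) (Fin p) ℂ :=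
  fun a b => ∑ t ∈ S, ((Rm σ a t : ℝ) : ℂ) * ((Rm σ b t : ℝ) : ℂ)

/-- the resolvent `(Λ^2 + R_S R_S^*)^{-1}` -/
def QS {p q : ℕ} (σ : Fin p → Fin q → Bool) (S : Finset (Fin q)) (Λ : ℝ) :
    Matrix (Fin p) (Fin p) ℂ :=
  (((Λ ^ 2 : ℝ) : ℂ) • (1 : Matrix (Fin p) (Fin p) ℂ) + XS σ S)⁻¹

/-- the quadratic form of the ridge operator `B_S = R_S R_S^* (Λ^2 + R_S R_S^*)^{-1}` -/
def EB {p q : ℕ} (σ : Fin p → Fin q → Bool) (S : Finset (Fin q)) (Λ : ℝ) (v : Fin p → ℂ) : ℝ :=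
  (ip v ((XS σ S * QS σ S Λ).mulVec v)).re

/-- RL: the code is contractive from `l1` to `l2` -/
def S_RL : Prop :=
  ∀ (p q : ℕ) (σ : Fin p → Fin q → Bool), 1 ≤ p → ∀ β : Fin q → ℂ,
    sq (RV σ β) ≤ (l1 β) ^ 2

/-- coherence of the columns -/
def P1 {p q : ℕ} (σ : Fin p → Fin q → Bool) : Prop :=
  ∀ s t, s ≠ t → |∑ a, Rm σ a s * Rm σ a t| ≤ (p : ℝ) ^ (-(1 / 4 : ℝ))

/-- almost orthogonality of the rows -/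
def P2 {p q : ℕ} (σ : Fin p → Fin q → Bool) : Prop :=
  ∀ a b, a ≠ b → (p : ℝ) ^ 4 * |∑ t, Rm σ a t * Rm σ b t| ≤ q

/-- random property for the ridge form -/
def P3 {p q : ℕ} (Z L : ℕ) (Λ : ℝ) (σ : Fin p → Fin q → Bool) : Prop :=
  ∀ N : ℕ, p ≤ N → N ≤ L * p → ∀ S : Finset (Fin q), S.card ≤ L * p →
    ∀ γ : Fin N → Fin q → ℂ, (∀ i, GI Z (γ i)) → (∀ i, ∀ t ∈ S, γ i t = 0) → Disj γ →
      ∑ i, EB σ S Λ (RV σ (γ i)) ≤ (N : ℝ) / Z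

/-- random property for linear images of discretised labels -/
def P4 {p q : ℕ} (Z C L : ℕ) (σ : Fin p → Fin q → Bool) : Prop :=
  ∀ d N : ℕ, d ^ 8 ≤ p → N ≤ L * p → ∀ S : Finset (Fin q), C * (d + p + S.card) ≤ N →
    ∀ (e : Fin N → Fin d → ℂ) (α : Fin N → Fin p → ℂ) (b γ : Fin N → Fin q → ℂ),
      (∀ i, GB (p ^ 2) (e i)) → (∀ i, GI Z (α i)) → (∀ i, GI Z (b i)) → (∀ i, GI Z (γ i)) →
      Disj γ →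
      ∀ (M₁ : Matrix (Fin p) (Fin d) ℂ) (M₂ : Matrix (Fin p) (Fin p) ℂ)
        (M₃ : Matrix (Fin p) (Fin q) ℂ) (h : Fin N → Fin p → ℂ),
        (∀ i, h i = M₁.mulVec (e i) + M₂.mulVec (α i) + M₃.mulVec (res S (b i))) →
        ‖∑ i, ip (h i) (RV σ (γ i))‖ ^ 2 ≤ ((N : ℝ) / Z) * ∑ i, sq (h i)

/-- RE: existence of the random codes -/
def S_RE : Prop :=
  ∀ Z : ℕ, 1 ≤ Z → ∃ C : ℕ, 1 ≤ C ∧ ∀ L : ℕ, 1 ≤ L → ∃ Λ : ℝ, 1 ≤ Λ ∧ ∃ Ψ : ℕ,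
    ∀ p q : ℕ, Ψ ≤ p → p ^ 8 ≤ q → q ≤ 2 ^ (Nat.sqrt p / 4) →
      ∃ σ : Fin p → Fin q → Bool, P1 σ ∧ P2 σ ∧ P3 Z L Λ σ ∧ P4 Z C L σ

/-- the input of the near-level lemma: a finite weighted system of vectors -/
structure Sys {p q : ℕ} (σ : Fin p → Fin q → Bool) (K R δ θ : ℝ) (d N : ℕ) where
  ϖ : Fin N → ℝ
  e : Fin N → Fin d → ℂ
  A : Fin N → Fin p → ℂ
  u : Fin N → Fin p → ℂ
  w : Fin N → Fin q → ℂ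
  α : Fin N → Fin p → ℂ
  β : Fin N → Fin q → ℂ
  β' : Fin N → Fin q → ℂ
  hϖ : ∀ j, 0 ≤ ϖ j
  hK : ∑ j, ϖ j ≤ K
  he : ∀ j x, ‖e j x‖ ≤ p
  hA : ∀ j, sq (A j - α j) ≤ δ ^ 2
  hα : ∀ j, l1 (α j) ≤ R
  huw : ∀ j, sq (u j) + sq (w j) ≤ 1
  hβ : ∀ j, sq (u j - RV σ (β j)) + sq (w j - β j) ≤ δ ^ 2
  hβR : ∀ j, l1 (β j) ≤ R
  hβ' : ∀ j, sq (u j - RV σ (β' j)) + sq (w j - β' j) ≤ (2 / θ) ^ 2
  hβ'R : ∀ j, l1 (β' j) ≤ (p : ℝ) ^ (1 / 16 : ℝ)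

/-- the arguments of the functionals -/
abbrev Arg (d p q : ℕ) : Type := (Fin d → ℂ) × (Fin p → ℂ) × (Fin p → ℂ) × (Fin q → ℂ)

/-- square norm of the arguments -/
def sqA {d p q : ℕ} (x : Arg d p q) : ℝ := sq x.1 + sq x.2.1 + sq x.2.2.1 + sq x.2.2.2

/-- the output of the near-level lemma -/
structure Out {p q : ℕ} {σ : Fin p → Fin q → Bool} {K R δ θ : ℝ} {d N : ℕ}
    (s : Sys σ K R δ θ d N) (ε Cst : ℝ) where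
  g : Fin N → Arg d p q →ₗ[ℂ] ℂ
  n : ℕ
  B : Fin n → Fin N → ℂ
  C : Fin n → Fin N → ℂ
  c : Fin N → Fin q → ℂ
  hn : n ≤ p ^ 2
  hg : ∀ j x, ‖g j x‖ ^ 2 ≤ Cst * sqA x
  hBC : ∀ j i, ((Real.sqrt (s.ϖ j) * Real.sqrt (s.ϖ i) : ℝ) : ℂ) *
    g j (s.e i, s.A i, s.u i, s.w i) = ∑ m, B m j * C m i
  hB : ∀ v : Fin N → ℂ, ∑ m, ‖∑ j, B m j * v j‖ ^ 2 ≤ ∑ j, ‖v j‖ ^ 2
  hC : ∀ v : Fin N → ℂ, ∑ m, ‖∑ i, C m i * v i‖ ^ 2 ≤ 4 * ∑ i, ‖v i‖ ^ 2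
  he : ∑ i, s.ϖ i * (sq (s.e i - ∑ j, ((s.ϖ j : ℂ) * g j (s.e i, s.A i, s.u i, s.w i)) • s.e j) +
    sq (s.A i - ∑ j, ((s.ϖ j : ℂ) * g j (s.e i, s.A i, s.u i, s.w i)) • s.A j)) ≤ ε ^ 2
  hc : ∀ i, l1 (c i) ≤ R
  hy : ∑ i, s.ϖ i *
    (sq (∑ j, ((s.ϖ j : ℂ) * g j (s.e i, s.A i, s.u i, s.w i)) • s.u j - RV σ (c i)) +
    sq (∑ j, ((s.ϖ j : ℂ) * g j (s.e i, s.A i, s.u i, s.w i)) • s.w j - c i)) ≤ ε ^ 2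

/-- the near-level property of a code -/
def NLP {p q : ℕ} (σ : Fin p → Fin q → Bool) (K ε R δ θ : ℝ) : Prop :=
  ∀ d : ℕ, d ^ 8 ≤ p → ∃ Cst : ℝ, ∀ (N : ℕ) (s : Sys σ K R δ θ d N), Nonempty (Out s ε Cst)

/-- CL: the deterministic near-level lemma -/
def S_CL : Prop :=
  ∀ K ε R δ : ℝ, 1 ≤ K → 0 < ε → ε ≤ 1 → 1 ≤ R → 0 < δ → 2 ^ 20 * K * δ ≤ ε ^ 2 →
    ∃ Z : ℕ, 1 ≤ Z ∧ ∀ C : ℕ, 1 ≤ C → ∃ L : ℕ, 1 ≤ L ∧ ∀ Λ : ℝ, 1 ≤ Λ →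
      ∃ (θ₀ : ℝ) (Ψ : ℕ), ∀ (p q : ℕ) (σ : Fin p → Fin q → Bool), Ψ ≤ p → P1 σ →
        P3 Z L Λ σ → P4 Z C L σ → ∀ θ : ℝ, θ₀ ≤ θ → NLP σ K ε R δ θ

/-- NL: codes with the near-level property exist -/
def S_NL : Prop :=
  ∀ K ε R δ : ℝ, 1 ≤ K → 0 < ε → ε ≤ 1 → 1 ≤ R → 0 < δ → 2 ^ 20 * K * δ ≤ ε ^ 2 →
    ∃ (θ₀ : ℝ) (Ψ : ℕ), ∀ p q : ℕ, Ψ ≤ p → p ^ 8 ≤ q → q ≤ 2 ^ (Nat.sqrt p / 4) →
      ∃ σ : Fin p → Fin q → Bool, P1 σ ∧ P2 σ ∧ ∀ θ : ℝ, θ₀ ≤ θ → NLP σ K ε R δ θ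

theorem nl (h1 : S_RE) (h2 : S_CL) : S_NL := by
  intro K ε R δ hK hε hε1 hR hδ hrel
  obtain ⟨Z, hZ, hZ'⟩ := h2 K ε R δ hK hε hε1 hR hδ hrel
  obtain ⟨C, hC, hC'⟩ := h1 Z hZ
  obtain ⟨L, hL, hL'⟩ := hZ' C hC
  obtain ⟨Λ, hΛ, Ψ₁, hΨ₁⟩ := hC' L hL
  obtain ⟨θ₀, Ψ₂, hΨ₂⟩ := hL' Λ hΛ
  refine ⟨θ₀, max Ψ₁ Ψ₂, fun p q hp hq1 hq2 => ?_⟩
  obtain ⟨σ, s1, s2, s3, s4⟩ := hΨ₁ p q (le_trans (le_max_left _ _) hp) hq1 hq2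
  exact ⟨σ, s1, s2, fun θ hθ => hΨ₂ p q σ (le_trans (le_max_right _ _) hp) s1 s3 s4 θ hθ⟩

end Pool.Agent.Helper25.HL
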