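import Pool.Agent.Helper25.HL.Defs

/-!
# Project HL: goals for the deterministic near-level lemma CL
-/

set_option autoImplicit false

open Filter Topology

noncomputable section

namespace Pool.Agent.Helper25.HL

/-- TIK: regularised projection onto the span of noisy labels -/
def S_TIK : Prop :=
  ∀ (κ ι : Type) [Fintype κ] [DecidableEq κ] [Fintype ι] (a b : ι → κ → ℂ) (ε₃ ϵ : ℝ),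
    0 < ε₃ → ε₃ ≤ 1 → 0 < ϵ → ∃ W : Matrix κ κ ℂ,
      (∀ v : ι → ℂ, sq (W.mulVec (∑ j, v j • a j)) ≤ ∑ j, ‖v j‖ ^ 2) ∧
      (∀ v : ι → ℂ, sq (W.mulVec (∑ j, v j • b j)) ≤ ε₃ * ∑ j, ‖v j‖ ^ 2) ∧
      (∀ x : κ → ℂ, ϵ * sq (W.mulVec x) ≤ sq x) ∧
      ∑ j, sq (W.mulVec (a j)) ≤ Fintype.card κ ∧
      ∑ i, sq (∑ j, ip (W.mulVec (a j)) (W.mulVec (a i + b i)) • a j - a i) ≤
        16 * ((∑ j, sq (b j)) / ε₃ + ϵ * Fintype.card κ)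

/-- ADJ: the adjoint of a bounded synthesis operator -/
def S_ADJ : Prop :=
  ∀ (κ ι : Type) [Fintype κ] [Fintype ι] (t : ι → κ → ℂ) (c : ℝ), 0 ≤ c →
    (∀ v : ι → ℂ, sq (∑ j, v j • t j) ≤ c * ∑ j, ‖v j‖ ^ 2) →
    ∀ x : κ → ℂ, ∑ j, ‖ip (t j) x‖ ^ 2 ≤ c * sq x

/-- WP: light coordinates, the part of the coefficients -/
def S_WP : Prop :=
  ∀ (κ ι : Type) [Fintype κ] [Fintype ι] (t : ι → κ → ℂ) (q : ℕ) (ϖ : ι → ℝ)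
    (b : ι → Fin q → ℂ) (R η n : ℝ), (∀ j, 0 ≤ ϖ j) → 0 ≤ R → 0 ≤ η →
    (∀ v : ι → ℂ, sq (∑ j, v j • t j) ≤ ∑ j, ‖v j‖ ^ 2) → ∑ j, sq (t j) ≤ n →
    (∀ j, l1 (b j) ≤ R) → (∀ s, ∑ j, ϖ j * ‖b j s‖ ≤ η) →
    ∑ i, sq (∑ j, (ip (t j) (t i) * (Real.sqrt (ϖ j) : ℂ)) • b j) ≤ R * η * n

/-- DU: duality for the regularised projection -/
def S_DU : Prop :=
  ∀ (κ ι τ : Type) [Fintype κ] [Fintype ι] [Fintype τ] (t : ι → κ → ℂ) (g h : ι → τ → ℂ),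
    (∀ v : ι → ℂ, sq (∑ j, v j • t j) ≤ ∑ j, ‖v j‖ ^ 2) →
    (∀ i, h i = ∑ j, ip (t j) (t i) • g j) →
    ∑ i, sq (h i) ≤ ‖∑ i, ip (h i) (g i)‖

/-- OPN: the norm of a product -/
def S_OPN : Prop :=
  ∀ (κ ι τ : Type) [Fintype κ] [Fintype ι] [Fintype τ] (t r : ι → κ → ℂ) (x : ι → τ → ℂ)
    (ct cr : ℝ), 0 ≤ ct → 0 ≤ cr →
    (∀ v : ι → ℂ, sq (∑ j, v j • t j) ≤ ct * ∑ j, ‖v j‖ ^ 2) →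
    (∀ v : ι → ℂ, sq (∑ j, v j • r j) ≤ cr * ∑ j, ‖v j‖ ^ 2) →
    ∑ i, sq (∑ j, ip (t j) (r i) • x j) ≤ ct * cr * ∑ j, sq (x j)

/-- the supports indexed by `I` are pairwise disjoint -/
def DisjOn {ι : Type} {N q : ℕ} (supp : ι → Finset (Fin q)) (J : Fin N → ι)
    (I : Finset (Fin N)) : Prop :=
  ∀ i ∈ I, ∀ i' ∈ I, i ≠ i' → Disjoint (supp (J i)) (supp (J i'))

/-- SA1: sampling, nonnegative functions -/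
def S_SA1 : Prop :=
  ∀ (ι : Type) [Fintype ι] (q N s : ℕ) (ϖ : ι → ℝ) (supp : ι → Finset (Fin q))
    (η C K E : ℝ) (φ : ι → ℝ), 1 ≤ N → (∀ j, 0 ≤ ϖ j) → ∑ j, ϖ j ≤ K →
    (∀ j, (supp j).card ≤ s) → (∀ t, ∑ j, (if t ∈ supp j then ϖ j else 0) ≤ η) →
    0 ≤ C → 0 ≤ E → 0 ≤ η → (∀ j, 0 ≤ φ j ∧ φ j ≤ C) →
    (∀ (J : Fin N → ι) (I : Finset (Fin N)), DisjOn supp J I → ∑ i ∈ I, φ (J i) ≤ E * N) →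
    ∑ j, ϖ j * φ j ≤ K * E + C * N * s * η

/-- SA2: sampling, bilinear expressions -/
def S_SA2 : Prop :=
  ∀ (ι τ : Type) [Fintype ι] [Fintype τ] (q N s : ℕ) (ϖ : ι → ℝ)
    (supp : ι → Finset (Fin q)) (η C K E : ℝ) (g h : ι → τ → ℂ), 1 ≤ N → (∀ j, 0 ≤ ϖ j) →
    ∑ j, ϖ j ≤ K → (∀ j, (supp j).card ≤ s) →
    (∀ t, ∑ j, (if t ∈ supp j then ϖ j else 0) ≤ η) → 0 ≤ C → 0 ≤ E → 0 ≤ η →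
    (∀ j, sq (g j) ≤ C) →
    (∀ (J : Fin N → ι) (I : Finset (Fin N)), DisjOn supp J I →
      ‖∑ i ∈ I, ip (h (J i)) (g (J i))‖ ^ 2 ≤ E * N * ∑ i, sq (h (J i))) →
    ‖∑ j, (ϖ j : ℂ) * ip (h j) (g j)‖ ^ 2 ≤ 2 * (K * E + C * N * s * η) * ∑ j, ϖ j * sq (h j)

/-- EBF: facts on the ridge form -/
def S_EBF : Prop :=
  ∀ (p q : ℕ) (σ : Fin p → Fin q → Bool) (S : Finset (Fin q)) (Λ : ℝ), 1 ≤ Λ →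
    (∀ v, 0 ≤ EB σ S Λ v ∧ EB σ S Λ v ≤ sq v) ∧
    (∀ v v', EB σ S Λ (v + v') ≤ 2 * EB σ S Λ v + 2 * EB σ S Λ v') ∧
    (∀ (c : ℂ) v, EB σ S Λ (c • v) = ‖c‖ ^ 2 * EB σ S Λ v)

/-- RDG: the ridge map -/
def S_RDG : Prop :=
  ∀ (p q : ℕ) (σ : Fin p → Fin q → Bool) (S : Finset (Fin q)) (Λ : ℝ), 1 ≤ Λ →
    ∃ bm : ((Fin p → ℂ) × (Fin q → ℂ)) →ₗ[ℂ] (Fin q → ℂ),
      (∀ x, ∀ t ∉ S, bm x t = 0) ∧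
      (∀ x, sq (RV σ (bm x)) + sq (bm x) ≤ 4 * Λ ^ 2 * (sq x.1 + sq x.2)) ∧
      (∀ β, sq (RV σ (bm (RV σ β, β) - res S β)) + sq (bm (RV σ β, β) - res S β) ≤
        2 * EB σ S Λ (RV σ (res Sᶜ β)))

/-- RO: rounding towards zero -/
def S_RO : Prop :=
  ∀ (M : ℕ) (v : Fin M → ℂ) (h : ℝ), 0 < h → ∃ (a b : Fin M → ℤ) (m : Fin M → ℂ),
    (∀ t, m t = (a t : ℂ) + (b t : ℂ) * Complex.I) ∧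
    (∀ t, |(a t : ℝ)| * h ≤ ‖v t‖ ∧ |(b t : ℝ)| * h ≤ ‖v t‖) ∧
    (∑ t, (|(a t : ℝ)| + |(b t : ℝ)|)) * h ≤ 2 * l1 v ∧
    (∀ t, ‖v t - h * m t‖ ^ 2 ≤ 2 * h ^ 2) ∧
    sq (v - (h : ℂ) • m) ≤ 2 * h * l1 v ∧ l1 (v - (h : ℂ) • m) ≤ l1 v ∧
    l1 ((h : ℂ) • m) ≤ l1 v ∧ sq ((h : ℂ) • m) ≤ sq v

/-- COH: coherence controls the code on vectors of small `l1` norm -/
def S_COH : Prop :=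
  ∀ (p q : ℕ) (σ : Fin p → Fin q → Bool), 1 ≤ p → P1 σ → ∀ β : Fin q → ℂ,
    sq (RV σ β) ≤ sq β + (p : ℝ) ^ (-(1 / 4 : ℝ)) * (l1 β) ^ 2

/-- SH: a light shell -/
def S_SH : Prop :=
  ∀ (q N T : ℕ) (ϖ : Fin N → ℝ) (b : Fin N → Fin q → ℂ) (M ε₅ τ₀ : ℝ), 1 ≤ T →
    (∀ j, 0 ≤ ϖ j) → ∑ j, ϖ j * sq (b j) ≤ M → 0 < ε₅ → ε₅ < 1 → 0 < τ₀ →
    ∃ l : ℕ, l < T ∧ ∃ S S' : Finset (Fin q), S ⊆ S' ∧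
      (∀ t, t ∈ S ↔ τ₀ * ε₅ ^ l ≤ ∑ j, ϖ j * ‖b j t‖) ∧
      (∀ t, t ∈ S' ↔ τ₀ * ε₅ ^ (l + 1) ≤ ∑ j, ϖ j * ‖b j t‖) ∧
      ∑ j, ϖ j * sq (res (S' \ S) (b j)) ≤ M / T

/-- EM: the mean of the ridge form on light vectors -/
def S_EM : Prop :=
  ∀ (p q N N₁ Z L : ℕ) (σ : Fin p → Fin q → Bool) (Λ K h η : ℝ) (ϖ : Fin N → ℝ)
    (m : Fin N → Fin q → ℂ) (S S' : Finset (Fin q)), 1 ≤ p → 1 ≤ Z → 1 ≤ Λ → P3 Z L Λ σ →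
    (∀ j, 0 ≤ ϖ j) → ∑ j, ϖ j ≤ K → 0 < h → h ≤ 1 → (∀ j, GI Z (m j)) → S ⊆ S' →
    S.card ≤ L * p → (∀ t, t ∉ S' → ∑ j, ϖ j * ‖m j t‖ ≤ η) → 0 ≤ η → p ≤ N₁ → N₁ ≤ L * p →
    ∑ j, ϖ j * EB σ S Λ (RV σ (res S'ᶜ ((h : ℂ) • m j))) ≤ K / Z + (Z : ℝ) ^ 3 * N₁ * η

/-- LP: the correlation of light vectors with linear images of the labels -/
def S_LP : Prop :=
  ∀ (p q d N N₁ Z C L : ℕ) (σ : Fin p → Fin q → Bool) (K h η : ℝ) (ϖ : Fin N → ℝ)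
    (k : Fin N → Fin d → ℂ) (a : Fin N → Fin p → ℂ) (m : Fin N → Fin q → ℂ)
    (S S' : Finset (Fin q)), 1 ≤ p → 1 ≤ Z → 1 ≤ C → P4 Z C L σ → d ^ 8 ≤ p →
    (∀ j, 0 ≤ ϖ j) → ∑ j, ϖ j ≤ K → 0 < h → h ≤ 1 → (∀ j, GB (p ^ 2) (k j)) →
    (∀ j, GI Z (a j)) → (∀ j, GI Z (m j)) → S ⊆ S' →
    (∀ t, t ∉ S' → ∑ j, ϖ j * ‖m j t‖ ≤ η) → 0 ≤ η →
    C * (d + p + S.card) ≤ N₁ → N₁ ≤ L * p →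
    ∀ (M₁ : Matrix (Fin p) (Fin d) ℂ) (M₂ : Matrix (Fin p) (Fin p) ℂ)
      (M₃ : Matrix (Fin p) (Fin q) ℂ) (f : Fin N → Fin p → ℂ),
      (∀ j, f j = M₁.mulVec (k j) + M₂.mulVec (a j) + M₃.mulVec (res S (m j))) →
      ‖∑ j, (ϖ j : ℂ) * ip (f j) (RV σ (res S'ᶜ ((h : ℂ) • m j)))‖ ^ 2 ≤
        2 * (K / Z + (Z : ℝ) ^ 3 * N₁ * η) * ∑ j, ϖ j * sq (f j)

/-- discretised labels for a system, with their estimates -/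
structure Lab {p q : ℕ} {σ : Fin p → Fin q → Bool} {K R δ θ : ℝ} {d N : ℕ}
    (s : Sys σ K R δ θ d N) (ε Λ : ℝ) where
  eh : Fin N → Fin d → ℂ
  ah : Fin N → Fin p → ℂ
  bh : Fin N → Fin q → ℂ
  S : Finset (Fin q)
  S' : Finset (Fin q)
  η : ℝ
  bm : ((Fin p → ℂ) × (Fin q → ℂ)) →ₗ[ℂ] (Fin q → ℂ)
  hSS : S ⊆ S'
  hcard : d + 2 * p + S.card ≤ p ^ 2
  heh : ∀ j x, ‖eh j x‖ ≤ 2 * p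
  hah : ∀ j, l1 (ah j) ≤ R
  hbh : ∀ j, l1 (bh j) ≤ R
  hbm : ∀ x, ∀ t ∉ S, bm x t = 0
  hbn : ∀ x, sq (RV σ (bm x)) + sq (bm x) ≤ 4 * Λ ^ 2 * (sq x.1 + sq x.2)
  hν : ∑ j, s.ϖ j * (sq (s.e j - eh j) + sq (s.A j - ah j) +
    (sq (RV σ (bm (s.u j, s.w j) - res S (bh j))) +
      sq (bm (s.u j, s.w j) - res S (bh j)))) ≤ 1000 * K * δ ^ 2
  hy : ∀ j, sq (s.u j - RV σ (bh j)) + sq (s.w j - bh j) ≤ 16 * δ ^ 2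
  hsh : ∑ j, s.ϖ j * (sq (RV σ (res (S' \ S) (bh j))) + sq (res (S' \ S) (bh j))) ≤
    4 * K * δ ^ 2
  hvl : ∀ j, sq (RV σ (res S'ᶜ (bh j))) + sq (res S'ᶜ (bh j)) ≤ 9
  hη : 0 ≤ η
  hlight : ∀ t, t ∉ S' → ∑ j, s.ϖ j * ‖bh j t‖ ≤ η
  hW : R * η * (d + 2 * p + S.card) ≤ (ε / 16) ^ 2
  hLP : ∀ (M₁ : Matrix (Fin p) (Fin d) ℂ) (M₂ : Matrix (Fin p) (Fin p) ℂ)
      (M₃ : Matrix (Fin p) (Fin q) ℂ) (f : Fin N → Fin p → ℂ),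
      (∀ j, f j = M₁.mulVec (eh j) + M₂.mulVec (ah j) + M₃.mulVec (res S (bh j))) →
      ‖∑ j, (s.ϖ j : ℂ) * ip (f j) (RV σ (res S'ᶜ (bh j)))‖ ^ 2 ≤
        (ε / 16) ^ 2 * ∑ j, s.ϖ j * sq (f j)

/-- NU: the mean square of the label noise -/
def S_NU : Prop :=
  ∀ (p q d N : ℕ) (σ : Fin p → Fin q → Bool) (K R δ θ Λ h : ℝ) (s : Sys σ K R δ θ d N)
    (eh : Fin N → Fin d → ℂ) (ah : Fin N → Fin p → ℂ) (bh : Fin N → Fin q → ℂ)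
    (S S' : Finset (Fin q)) (bm : ((Fin p → ℂ) × (Fin q → ℂ)) →ₗ[ℂ] (Fin q → ℂ)),
    1 ≤ p → P1 σ → 1 ≤ K → 1 ≤ R → 0 < δ → δ ≤ 1 → 1 ≤ Λ → 0 < h → 2 * h * R ≤ δ ^ 2 →
    1 ≤ θ → 8 * Λ ≤ δ * θ →
    (p : ℝ) ^ (-(1 / 4 : ℝ)) * ((p : ℝ) ^ (1 / 16 : ℝ) + R) ^ 2 ≤ δ ^ 2 → S ⊆ S' →
    (∀ j, sq (s.e j - eh j) ≤ δ ^ 2) →
    (∀ j, sq (s.α j - ah j) ≤ 2 * h * R) →
    (∀ j, sq (s.β j - bh j) ≤ 2 * h * R ∧ l1 (s.β j - bh j) ≤ R ∧ l1 (bh j) ≤ R) →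
    (∀ x, ∀ t ∉ S, bm x t = 0) →
    (∀ x, sq (RV σ (bm x)) + sq (bm x) ≤ 4 * Λ ^ 2 * (sq x.1 + sq x.2)) →
    (∀ β, sq (RV σ (bm (RV σ β, β) - res S β)) + sq (bm (RV σ β, β) - res S β) ≤
      2 * EB σ S Λ (RV σ (res Sᶜ β))) →
    ∑ j, s.ϖ j * sq (RV σ (res (S' \ S) (bh j))) ≤ 2 * K * δ ^ 2 →
    ∑ j, s.ϖ j * EB σ S Λ (RV σ (res S'ᶜ (bh j))) ≤ K * δ ^ 2 →
    ∑ j, s.ϖ j * (sq (s.e j - eh j) + sq (s.A j - ah j) +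
      (sq (RV σ (bm (s.u j, s.w j) - res S (bh j))) +
        sq (bm (s.u j, s.w j) - res S (bh j)))) ≤ 1000 * K * δ ^ 2

/-- LAB: discretised labels exist -/
def S_LAB : Prop :=
  ∀ K ε R δ : ℝ, 1 ≤ K → 0 < ε → ε ≤ 1 → 1 ≤ R → 0 < δ → 2 ^ 20 * K * δ ≤ ε ^ 2 →
    ∃ Z : ℕ, 1 ≤ Z ∧ ∀ C : ℕ, 1 ≤ C → ∃ L : ℕ, 1 ≤ L ∧ ∀ Λ : ℝ, 1 ≤ Λ →
      ∃ (θ₀ : ℝ) (Ψ : ℕ), ∀ (p q : ℕ) (σ : Fin p → Fin q → Bool), Ψ ≤ p → P1 σ →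
        P3 Z L Λ σ → P4 Z C L σ → ∀ θ : ℝ, θ₀ ≤ θ → ∀ d : ℕ, d ^ 8 ≤ p →
          ∀ (N : ℕ) (s : Sys σ K R δ θ d N), Nonempty (Lab s ε Λ)

/-- FIN: from the discretised labels to the output -/
def S_FIN : Prop :=
  ∀ (K ε R δ Λ : ℝ) (p q d : ℕ) (σ : Fin p → Fin q → Bool), 1 ≤ K → 0 < ε → ε ≤ 1 → 1 ≤ R →
    0 < δ → 2 ^ 20 * K * δ ≤ ε ^ 2 → 1 ≤ Λ → 1 ≤ p →
    ∃ Cst : ℝ, ∀ (θ : ℝ) (N : ℕ) (s : Sys σ K R δ θ d N), Lab s ε Λ → Nonempty (Out s ε Cst)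

theorem cl (h1 : S_LAB) (h2 : S_FIN) : S_CL := by
  intro K ε R δ hK hε hε1 hR hδ hrel
  obtain ⟨Z, hZ, hZ'⟩ := h1 K ε R δ hK hε hε1 hR hδ hrel
  refine ⟨Z, hZ, fun C hC => ?_⟩
  obtain ⟨L, hL, hL'⟩ := hZ' C hC
  refine ⟨L, hL, fun Λ hΛ => ?_⟩
  obtain ⟨θ₀, Ψ, hΨ⟩ := hL' Λ hΛ
  refine ⟨θ₀, max Ψ 1, fun p q σ hp s1 s3 s4 θ hθ d hd => ?_⟩
  obtain ⟨Cst, hC'⟩ := h2 K ε R δ Λ p q d σ hK hε hε1 hR hδ hrel hΛ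
    (le_trans (le_max_right _ _) hp)
  refine ⟨Cst, fun N s => ?_⟩
  obtain ⟨lab⟩ := hΨ p q σ (le_trans (le_max_left _ _) hp) s1 s3 s4 θ hθ d hd N s
  exact hC' θ N s lab

end Pool.Agent.Helper25.HL
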