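import Pool.Agent.Helper25.HL.Defs

/-!
# Project HL: goals for the existence of the random codes RE
-/

set_option autoImplicit false

open Filter Topology

noncomputable section

namespace Pool.Agent.Helper25.HL

/-- the sign of a boolean -/
def sg (b : Bool) : ℝ := if b then 1 else -1

open Classical in
/-- number of sign matrices with a property -/
def cnt {p q : ℕ} (P : (Fin p → Fin q → Bool) → Prop) : ℕ :=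
  (Finset.univ.filter P).card

/-- MG: exponential moments of quadratic forms of signs -/
def S_MG : Prop :=
  ∀ (ι κ : Type) [Fintype ι] [DecidableEq ι] [Fintype κ] (B : κ → ι → ℝ) (s : ℝ), 0 < s →
    (∀ g : κ → ℝ, ∑ x, (∑ k, g k * B k x) ^ 2 ≤ s * ∑ k, (g k) ^ 2) →
    ∑ ω : ι → Bool, Real.exp ((∑ k, (∑ x, B k x * sg (ω x)) ^ 2) / (4 * s)) ≤
      (2 : ℝ) ^ (Fintype.card ι) * (2 : ℝ) ^ (Fintype.card κ)

/-- CH4: tail bound, projections on the side of the samples -/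
def S_CH4 : Prop :=
  ∀ (p q N D Z : ℕ) (γ : Fin N → Fin q → ℂ) (f : Fin D → Fin N → ℂ), 1 ≤ p → 1 ≤ Z →
    (∀ i, GI Z (γ i)) → Disj γ →
    (∀ g : Fin D → ℂ, ∑ i, ‖∑ k, g k * f k i‖ ^ 2 ≤ ∑ k, ‖g k‖ ^ 2) → ∀ x : ℝ,
    (cnt (fun σ : Fin p → Fin q → Bool =>
      x ≤ ∑ a, ∑ k, ‖∑ i, f k i * RV σ (γ i) a‖ ^ 2) : ℝ) ≤
      (2 : ℝ) ^ (p * q) * (4 : ℝ) ^ (p * D) * Real.exp (-(x * p / (4 * (Z : ℝ) ^ 2)))

/-- CH3: tail bound, projections on the side of the rows -/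
def S_CH3 : Prop :=
  ∀ (p q N D Z : ℕ) (γ : Fin N → Fin q → ℂ) (f : Fin D → Fin p → ℂ), 1 ≤ p → 1 ≤ Z →
    (∀ i, GI Z (γ i)) → Disj γ →
    (∀ g : Fin D → ℂ, ∑ a, ‖∑ k, g k * f k a‖ ^ 2 ≤ ∑ k, ‖g k‖ ^ 2) → ∀ x : ℝ,
    (cnt (fun σ : Fin p → Fin q → Bool =>
      x ≤ ∑ i, ∑ k, ‖∑ a, f k a * RV σ (γ i) a‖ ^ 2) : ℝ) ≤
      (2 : ℝ) ^ (p * q) * (4 : ℝ) ^ (N * D) * Real.exp (-(x * p / (4 * (Z : ℝ) ^ 2)))

/-- EBS: the ridge form is small outside a space of small dimension -/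
def S_EBS : Prop :=
  ∀ (p q : ℕ) (σ : Fin p → Fin q → Bool) (S : Finset (Fin q)) (Λ ε₉ : ℝ), 1 ≤ p → 1 ≤ Λ →
    0 < ε₉ → ∃ (D : ℕ) (f : Fin D → Fin p → ℂ), (D : ℝ) * (ε₉ * Λ ^ 2) ≤ S.card ∧
      (∀ g : Fin D → ℂ, ∑ a, ‖∑ k, g k * f k a‖ ^ 2 ≤ ∑ k, ‖g k‖ ^ 2) ∧
      ∀ v, EB σ S Λ v ≤ ε₉ * sq v + ∑ k, ‖∑ a, f k a * v a‖ ^ 2

/-- DEP: the ridge form depends only on the columns in `S`, the images of vectors vanishing on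
`S` only on the other columns -/
def S_DEP : Prop :=
  ∀ (p q : ℕ) (σ σ' : Fin p → Fin q → Bool) (S : Finset (Fin q)) (Λ : ℝ),
    ((∀ a, ∀ t ∈ S, σ a t = σ' a t) → ∀ v, EB σ S Λ v = EB σ' S Λ v) ∧
    ((∀ a, ∀ t ∉ S, σ a t = σ' a t) → ∀ β : Fin q → ℂ, (∀ t ∈ S, β t = 0) →
      RV σ β = RV σ' β)

/-- FUB: conditioning on the columns in `S` -/
def S_FUB : Prop :=
  ∀ (p q : ℕ) (S : Finset (Fin q))
    (P : (Fin p → Fin q → Bool) → (Fin p → Fin q → Bool) → Prop) (c : ℝ), 0 ≤ c →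
    (∀ ρ ρ' σ, (∀ a, ∀ t ∈ S, ρ a t = ρ' a t) → P ρ σ → P ρ' σ) →
    (∀ ρ σ σ', (∀ a, ∀ t ∉ S, σ a t = σ' a t) → P ρ σ → P ρ σ') →
    (∀ ρ, (cnt (fun σ : Fin p → Fin q → Bool => P ρ σ) : ℝ) ≤ (2 : ℝ) ^ (p * q) * c) →
    (cnt (fun σ : Fin p → Fin q → Bool => P σ σ) : ℝ) ≤ (2 : ℝ) ^ (p * q) * c

/-- F3: failure of P3 for fixed data -/
def S_F3 : Prop :=
  ∀ (p q N Z L : ℕ) (S : Finset (Fin q)) (γ : Fin N → Fin q → ℂ), 1 ≤ p → 1 ≤ Z → 1 ≤ L →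
    S.card ≤ L * p → (∀ i, GI Z (γ i)) → (∀ i, ∀ t ∈ S, γ i t = 0) → Disj γ →
    (cnt (fun σ : Fin p → Fin q → Bool =>
      ¬ (∑ i, EB σ S (8 * (Z : ℝ) ^ 3 * L) (RV σ (γ i)) ≤ (N : ℝ) / Z)) : ℝ) ≤
      (2 : ℝ) ^ (p * q) * Real.exp (-((N : ℝ) * p / (16 * (Z : ℝ) ^ 3)))

/-- F4: failure of P4 for fixed data -/
def S_F4 : Prop :=
  ∀ (p q d N Z : ℕ) (S : Finset (Fin q)) (e : Fin N → Fin d → ℂ) (α : Fin N → Fin p → ℂ)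
    (b γ : Fin N → Fin q → ℂ), 1 ≤ p → 1 ≤ Z → 32 * Z ^ 3 * (d + p + S.card) ≤ N →
    (∀ i, GI Z (γ i)) → Disj γ →
    (cnt (fun σ : Fin p → Fin q → Bool =>
      ¬ (∀ (M₁ : Matrix (Fin p) (Fin d) ℂ) (M₂ : Matrix (Fin p) (Fin p) ℂ)
        (M₃ : Matrix (Fin p) (Fin q) ℂ) (h : Fin N → Fin p → ℂ),
        (∀ i, h i = M₁.mulVec (e i) + M₂.mulVec (α i) + M₃.mulVec (res S (b i))) →
        ‖∑ i, ip (h i) (RV σ (γ i))‖ ^ 2 ≤ ((N : ℝ) / Z) * ∑ i, sq (h i))) : ℝ) ≤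
      (2 : ℝ) ^ (p * q) * Real.exp (-((N : ℝ) * p / (16 * (Z : ℝ) ^ 3)))

/-- GIC: number of Gaussian integer vectors -/
def S_GIC : Prop :=
  (∀ q Z : ℕ, ∃ F : Finset (Fin q → ℂ), (∀ β, GI Z β → β ∈ F) ∧ F.card ≤ (4 * q + 1) ^ Z) ∧
  (∀ d B : ℕ, ∃ F : Finset (Fin d → ℂ), (∀ β, GB B β → β ∈ F) ∧
    F.card ≤ (2 * B + 1) ^ (2 * d))

/-- R1: coherence holds for most codes -/
def S_R1 : Prop :=
  ∃ Ψ : ℕ, ∀ p q : ℕ, Ψ ≤ p → q ≤ 2 ^ (Nat.sqrt p / 4) →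
    (cnt (fun σ : Fin p → Fin q → Bool => ¬ P1 σ) : ℝ) ≤ (2 : ℝ) ^ (p * q) / 8

/-- R2: almost orthogonality of the rows holds for most codes -/
def S_R2 : Prop :=
  ∃ Ψ : ℕ, ∀ p q : ℕ, Ψ ≤ p → p ^ 8 ≤ q →
    (cnt (fun σ : Fin p → Fin q → Bool => ¬ P2 σ) : ℝ) ≤ (2 : ℝ) ^ (p * q) / 8

/-- R3: P3 holds for most codes -/
def S_R3 : Prop :=
  ∀ Z L : ℕ, 1 ≤ Z → 1 ≤ L → ∃ Ψ : ℕ, ∀ p q : ℕ, Ψ ≤ p → q ≤ 2 ^ (Nat.sqrt p / 4) →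
    (cnt (fun σ : Fin p → Fin q → Bool => ¬ P3 Z L (8 * (Z : ℝ) ^ 3 * L) σ) : ℝ) ≤
      (2 : ℝ) ^ (p * q) / 8

/-- R4: P4 holds for most codes -/
def S_R4 : Prop :=
  ∀ Z L : ℕ, 1 ≤ Z → 1 ≤ L → ∃ Ψ : ℕ, ∀ p q : ℕ, Ψ ≤ p → q ≤ 2 ^ (Nat.sqrt p / 4) →
    (cnt (fun σ : Fin p → Fin q → Bool => ¬ P4 Z (32 * Z ^ 3) L σ) : ℝ) ≤
      (2 : ℝ) ^ (p * q) / 8

open Classical in
theorem re (h1 : S_R1) (h2 : S_R2) (h3 : S_R3) (h4 : S_R4) : S_RE := by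
  intro Z hZ
  refine ⟨32 * Z ^ 3, by have : 0 < Z ^ 3 := pow_pos hZ 3; omega, fun L hL => ?_⟩
  have hΛ : (1 : ℝ) ≤ 8 * (Z : ℝ) ^ 3 * L := by
    have a : (1 : ℝ) ≤ Z := by exact_mod_cast hZ
    have b : (1 : ℝ) ≤ L := by exact_mod_cast hL
    have c : (1 : ℝ) ≤ (Z : ℝ) ^ 3 := one_le_pow₀ a
    nlinarith
  refine ⟨_, hΛ, ?_⟩
  obtain ⟨Ψ₁, g1⟩ := h1
  obtain ⟨Ψ₂, g2⟩ := h2
  obtain ⟨Ψ₃, g3⟩ := h3 Z L hZ hL
  obtain ⟨Ψ₄, g4⟩ := h4 Z L hZ hL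
  refine ⟨max (max Ψ₁ Ψ₂) (max Ψ₃ Ψ₄), fun p q hp hq1 hq2 => ?_⟩
  have e1 := g1 p q (le_trans (le_trans (le_max_left _ _) (le_max_left _ _)) hp) hq2
  have e2 := g2 p q (le_trans (le_trans (le_max_right _ _) (le_max_left _ _)) hp) hq1
  have e3 := g3 p q (le_trans (le_trans (le_max_left _ _) (le_max_right _ _)) hp) hq2
  have e4 := g4 p q (le_trans (le_trans (le_max_right _ _) (le_max_right _ _)) hp) hq2
  by_contra hcon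
  push Not at hcon
  have hall : ∀ σ : Fin p → Fin q → Bool, ¬ P1 σ ∨ ¬ P2 σ ∨
      ¬ P3 Z L (8 * (Z : ℝ) ^ 3 * L) σ ∨ ¬ P4 Z (32 * Z ^ 3) L σ := by
    intro σ
    by_cases c1 : P1 σ
    · by_cases c2 : P2 σ
      · by_cases c3 : P3 Z L (8 * (Z : ℝ) ^ 3 * L) σ
        · exact Or.inr (Or.inr (Or.inr (hcon σ c1 c2 c3)))
        · exact Or.inr (Or.inr (Or.inl c3))
      · exact Or.inr (Or.inl c2)
    · exact Or.inl c1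
  have hcard : (Finset.univ : Finset (Fin p → Fin q → Bool)).card = 2 ^ (p * q) := by
    rw [Finset.card_univ, Fintype.card_fun, Fintype.card_fun, Fintype.card_bool,
      Fintype.card_fin, Fintype.card_fin, ← pow_mul, mul_comm]
  have hsub : (Finset.univ : Finset (Fin p → Fin q → Bool)) ⊆
      (Finset.univ.filter fun σ => ¬ P1 σ) ∪ ((Finset.univ.filter fun σ => ¬ P2 σ) ∪
      ((Finset.univ.filter fun σ => ¬ P3 Z L (8 * (Z : ℝ) ^ 3 * L) σ) ∪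
      (Finset.univ.filter fun σ => ¬ P4 Z (32 * Z ^ 3) L σ))) := by
    intro σ _
    simp only [Finset.mem_union, Finset.mem_filter, Finset.mem_univ, true_and]
    exact hall σ
  have h5 := Finset.card_le_card hsub
  rw [hcard] at h5
  have h6 : (2 : ℕ) ^ (p * q) ≤ (Finset.univ.filter fun σ : Fin p → Fin q → Bool => ¬ P1 σ).card +
      ((Finset.univ.filter fun σ : Fin p → Fin q → Bool => ¬ P2 σ).card +
      ((Finset.univ.filter fun σ : Fin p → Fin q → Bool =>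
        ¬ P3 Z L (8 * (Z : ℝ) ^ 3 * L) σ).card +
      (Finset.univ.filter fun σ : Fin p → Fin q → Bool => ¬ P4 Z (32 * Z ^ 3) L σ).card)) := by
    refine h5.trans ((Finset.card_union_le _ _).trans ?_)
    gcongr
    refine (Finset.card_union_le _ _).trans ?_
    gcongr
    exact Finset.card_union_le _ _
  have h7 : ((2 : ℝ)) ^ (p * q) ≤ (cnt (fun σ : Fin p → Fin q → Bool => ¬ P1 σ) : ℝ) +
      ((cnt (fun σ : Fin p → Fin q → Bool => ¬ P2 σ) : ℝ) +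
      ((cnt (fun σ : Fin p → Fin q → Bool => ¬ P3 Z L (8 * (Z : ℝ) ^ 3 * L) σ) : ℝ) +
      (cnt (fun σ : Fin p → Fin q → Bool => ¬ P4 Z (32 * Z ^ 3) L σ) : ℝ))) := by
    have h6' : (2 : ℕ) ^ (p * q) ≤ cnt (fun σ : Fin p → Fin q → Bool => ¬ P1 σ) +
        (cnt (fun σ : Fin p → Fin q → Bool => ¬ P2 σ) +
        (cnt (fun σ : Fin p → Fin q → Bool => ¬ P3 Z L (8 * (Z : ℝ) ^ 3 * L) σ) +
        cnt (fun σ : Fin p → Fin q → Bool => ¬ P4 Z (32 * Z ^ 3) L σ))) := by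
      unfold cnt
      convert h6
    have h6'' := (Nat.cast_le (α := ℝ)).2 h6'
    push_cast at h6''
    exact h6''
  have h8 : (0 : ℝ) < (2 : ℝ) ^ (p * q) := by positivity
  linarith

end Pool.Agent.Helper25.HL
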