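import Pool.Agent.Helper25.HL.Goals3

/-!
# Project HL: the nuclear operator with trace 0 and eigenvalue sum 1, the parameters, the result
-/

set_option autoImplicit false

open Filter Topology

noncomputable section

namespace Pool.Agent.Helper25.HL

/-! ### the operator -/

section op

variable (P : ℕ → ℕ) (D : ∀ k, Lv (P k) (P (k + 1)))

/-- the combined coordinate `w_{k-1} + u_k` -/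
def hh (x : XX P D) : ∀ k : ℕ, Fin (P k) → ℂ
  | 0 => (pr P D x 0).1
  | k + 1 => (pr P D x k).2 + (pr P D x (k + 1)).1

/-- the component of the operator in the level `k` -/
def TT (k : ℕ) (x : XX P D) : XX P D :=
  emb P D k ((toPair (D k)).symm
    (((1 / (P k : ℝ) : ℝ) : ℂ) • hh P D x k, (-((1 / (P (k + 1) : ℝ) : ℝ) : ℂ)) • hh P D x (k + 1)))

/-- the representation of a level component by finitely many rank-one operators with trace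
zero and cost at most `c` -/
def FRep (k : ℕ) (c : ℝ) : Prop :=
  ∃ (n : ℕ) (F : Fin n → (XX P D →L[ℂ] ℂ)) (v : Fin n → XX P D),
    (∀ x, ∑ m, F m x • v m = TT P D k x) ∧ ∑ m, F m (v m) = 0 ∧ ∑ m, ‖F m‖ * ‖v m‖ ≤ c

end op

/-- DF: the dual frame of a code -/
def S_DF : Prop :=
  ∀ (p q : ℕ) (σ : Fin p → Fin q → Bool), 2 ≤ p → 1 ≤ q → P2 σ →
    ∃ y : Fin q → Fin p → ℝ,
      (∀ a b, ∑ t, Rm σ b t * y t a = if a = b then (q : ℝ) / p else 0) ∧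
      (∀ t, ∑ a, (y t a - Rm σ a t) ^ 2 ≤ (2 / (p : ℝ) ^ 2) ^ 2) ∧
      ∀ a, ∑ t, (y t a) ^ 2 ≤ 4 * ((q : ℝ) / p)

/-- RP0: representation of any level component -/
def S_RP0 : Prop :=
  ∀ (P : ℕ → ℕ) (D : ∀ k, Lv (P k) (P (k + 1))), (∀ k, 1 ≤ P k) → ∀ k, ∃ c : ℝ, FRep P D k c

/-- conditions on three consecutive levels -/
structure TriH (P : ℕ → ℕ) (D : ∀ k, Lv (P k) (P (k + 1))) (k : ℕ) : Prop where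
  hk : 1 ≤ k
  hP : ∀ j, 2 ≤ P (j + 1)
  hg : ∀ j, 1 ≤ j → (P j) ^ 8 ≤ P (j + 1)
  h1 : P1 (D (k + 1)).σ
  h2 : P2 (D (k + 1)).σ
  h8 : ∀ j, 1 ≤ j → j ≤ (D (k + 1)).J → (8 : ℝ) ^ j ≤ (D (k + 1)).r j
  hr : ∀ i, i ≤ k + 2 → 1 ≤ (D i).J → (D i).r (D i).J ≤ (P i : ℝ) ^ (1 / 8 : ℝ)

/-- FN: the functionals of the main part are bounded -/
def S_FN : Prop :=
  ∀ (P : ℕ → ℕ) (D : ∀ k, Lv (P k) (P (k + 1))) (k : ℕ), TriH P D k →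
    ∀ (y : Fin (P (k + 1)) → ℝ) (t : Fin (P (k + 1 + 1))),
      ∑ a, (y a - Rm (D (k + 1)).σ a t) ^ 2 ≤ (2 / (P (k + 1) : ℝ) ^ 2) ^ 2 →
      ∀ x : XX P D,
        ‖∑ a, (y a : ℂ) * hh P D x (k + 1) a - hh P D x (k + 2) t‖ ≤ 20 * ‖x‖

/-- RP1: representation of the component of the level `k + 1` -/
def S_RP1 : Prop :=
  ∀ (P : ℕ → ℕ) (D : ∀ k, Lv (P k) (P (k + 1))) (k : ℕ), TriH P D k →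
    FRep P D (k + 1) (40 / 2 ^ (D (k + 1)).J + 8 * (2 ^ (D k).J + 2 ^ (D (k + 1)).J +
      2 ^ (D (k + 2)).J) * Real.sqrt ((P (k + 1) : ℝ) / P (k + 2)))

/-- NUC: combination of the representations of the levels -/
def S_NUC : Prop :=
  ∀ (P : ℕ → ℕ) (D : ∀ k, Lv (P k) (P (k + 1))) (c : ℕ → ℝ), (∀ k, FRep P D k (c k)) →
    Summable c → ∃ (f : ℕ → (XX P D →L[ℂ] ℂ)) (x : ℕ → XX P D) (T : XX P D →L[ℂ] XX P D),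
      Summable (fun i => ‖f i‖ * ‖x i‖) ∧ (∀ y, T y = ∑' i, f i y • x i) ∧
      ∑' i, f i (x i) = 0 ∧ ∀ y, HasSum (fun k => TT P D k y) (T y)

/-- TSQ: the square of the operator is the projection onto the first coordinate -/
def S_TSQ : Prop :=
  ∀ (P : ℕ → ℕ) (D : ∀ k, Lv (P k) (P (k + 1))), P 0 = 1 → (∀ k, 1 ≤ P k) →
    ∀ T : XX P D →L[ℂ] XX P D, (∀ y, HasSum (fun k => TT P D k y) (T y)) →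
      (∀ y, T (T (T y)) = T (T y)) ∧
      Module.finrank ℂ (LinearMap.range ((T.comp T : XX P D →L[ℂ] XX P D) :
        XX P D →ₗ[ℂ] XX P D)) = 1

/-- EIG: eigenvalues of an operator with `T^3 = T^2` -/
def S_EIG : Prop :=
  ∀ (X : Type) [NormedAddCommGroup X] [NormedSpace ℂ X] (T : X →L[ℂ] X),
    (∀ y, T (T (T y)) = T (T y)) →
    Module.finrank ℂ (LinearMap.range ((T.comp T : X →L[ℂ] X) : X →ₗ[ℂ] X)) = 1 →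
    Summable (fun μ : ℂ =>
      (Module.finrank ℂ (Module.End.maxGenEigenspace (T : X →ₗ[ℂ] X) μ) : ℝ) * ‖μ‖) ∧
    ∑' μ : ℂ, (Module.finrank ℂ (Module.End.maxGenEigenspace (T : X →ₗ[ℂ] X) μ) : ℂ) * μ = 1

/-! ### parameters -/

/-- the whole construction -/
structure Scheme where
  P : ℕ → ℕ
  D : ∀ k, Lv (P k) (P (k + 1))
  W : Win P D
  hP0 : P 0 = 1
  hP : ∀ k, 2 ≤ P (k + 1)
  hg : ∀ k, 1 ≤ k → (P k) ^ 8 ≤ P (k + 1)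
  h1 : ∀ k, 2 ≤ k → P1 (D k).σ
  h2 : ∀ k, 2 ≤ k → P2 (D k).σ
  h8 : ∀ k, 2 ≤ k → ∀ j, 1 ≤ j → j ≤ (D k).J → (8 : ℝ) ^ j ≤ (D k).r j
  hr : ∀ k, 1 ≤ (D k).J → (D k).r (D k).J ≤ (P k : ℝ) ^ (1 / 8 : ℝ)
  hJ : ∀ k, (D k).J ≤ k
  hs : Summable (fun k => 1 / (2 : ℝ) ^ (D k).J)

/-- PS: the dimensions -/
def S_PS : Prop :=
  ∀ M : ℕ, ∃ P : ℕ → ℕ, P 0 = 1 ∧ M ≤ P 1 ∧ StrictMono P ∧ 64 ≤ P 1 ∧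
    (∀ k, 1 ≤ k → P (k + 1) = 2 ^ (Nat.sqrt (P k) / 4)) ∧
    (∀ k, 1 ≤ k → (P k) ^ (64 * (k + 1)) ≤ P (k + 1)) ∧
    (∀ c, 1 ≤ c → (dim0 P c) ^ 8 ≤ P (c + 1)) ∧ ∀ k, 2 ^ k ≤ P (k + 1)

/-- PQ: the numerical sequences of the windows -/
def S_PQ : Prop :=
  ∃ (K η : ℕ → ℝ) (J₁ : ℕ → ℕ), (∀ i, 0 ≤ K i) ∧ (∀ i, 0 < η i) ∧ (∀ i, η i ≤ 1) ∧
    (∀ i, 1 ≤ J₁ i) ∧ Summable η ∧ ¬ Summable (fun i => η i * K i) ∧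
    Tendsto K atTop atTop ∧ Tendsto (fun i => (4 : ℝ) ^ (J₁ i) * (η i * K i)) atTop (𝓝 0) ∧
    ∀ i, 2 ^ 20 * (1 + K i) * (2 / 2 ^ (J₁ i)) ≤ (1 / (1 + K i)) ^ 2

/-- positions and scales of the windows, relative to the sequence `P` -/
structure Pos (P : ℕ → ℕ) (K η : ℕ → ℝ) (J₁ : ℕ → ℕ) where
  a : ℕ → ℕ
  b : ℕ → ℕ
  Jw : ℕ → ℕ
  ρ : ℕ → ℕ
  θ₀ : ℕ → ℝ
  Ψ : ℕ → ℕ
  h2 : 2 ≤ a 0
  hba : ∀ i, b i < a (i + 1)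
  hb : ∀ i, b i = a i + 2 + ⌈η i * 2 ^ (Jw i)⌉₊
  hρ0 : ρ 0 = (P 1) ^ 8
  hρ : ∀ i, ρ (i + 1) = (P (b i)) ^ 8
  hnl : ∀ i, ∀ p q : ℕ, Ψ i ≤ p → p ^ 8 ≤ q → q ≤ 2 ^ (Nat.sqrt p / 4) →
      ∃ σ : Fin p → Fin q → Bool, P1 σ ∧ P2 σ ∧
        ∀ θ : ℝ, θ₀ i ≤ θ → NLP σ (1 + K i) (1 / (1 + K i)) ((ρ i : ℝ) ^ (J₁ i)) (2 / 2 ^ (J₁ i)) θ
  hθ : ∀ i, θ₀ i ≤ 2 ^ (Jw i)
  hJ : ∀ i, J₁ i < Jw i ∧ i ≤ Jw i ∧ Jw i ≤ a i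
  hR : ∀ i, (i + 1) * ((1 + K i) * (ρ i : ℝ) ^ (J₁ i)) ≤ 2 ^ (Jw i)
  hΨ : ∀ i, Ψ i ≤ P (a i)

/-- PO: positions exist -/
def S_PO : Prop :=
  ∀ (P : ℕ → ℕ) (K η : ℕ → ℝ) (J₁ : ℕ → ℕ), (∀ k, k ≤ P k) → (∀ k, 1 ≤ P k) →
    (∀ i, 0 ≤ K i) → (∀ i, 0 < η i) →
    (∀ i, 2 ^ 20 * (1 + K i) * (2 / 2 ^ (J₁ i)) ≤ (1 / (1 + K i)) ^ 2) →
    Nonempty (Pos P K η J₁)

/-- the levels of the construction, given the positions -/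
structure LvH (P : ℕ → ℕ) (K η : ℕ → ℝ) (J₁ : ℕ → ℕ) (Q : Pos P K η J₁)
    (D : ∀ k, Lv (P k) (P (k + 1))) : Prop where
  hJ0 : ∀ k, k ≤ 1 → (D k).J = 0
  hr0 : ∀ k, k ≤ 1 → ∀ j, (D k).r j = 1
  hJw : ∀ i k, Q.a i ≤ k → k < Q.b i → (D k).J = Q.Jw i
  hJb : ∀ k, 2 ≤ k → (∀ i, ¬ (Q.a i ≤ k ∧ k < Q.b i)) → (D k).J = k
  hrw : ∀ i k, Q.a i ≤ k → k < Q.b i → ∀ j, (D k).r j =
    if j ≤ J₁ i + 1 then (Q.ρ i : ℝ) ^ j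
    else (Q.ρ i : ℝ) ^ (J₁ i + 1) * (P (k - 1) : ℝ) ^ (8 * (j - (J₁ i + 1)))
  hrb : ∀ k, 2 ≤ k → (∀ i, ¬ (Q.a i ≤ k ∧ k < Q.b i)) → ∀ j,
    (D k).r j = (P (k - 1) : ℝ) ^ (8 * j)
  h12 : ∀ k, 2 ≤ k → P1 (D k).σ ∧ P2 (D k).σ
  hnl : ∀ i k, Q.a i ≤ k → k < Q.b i → ∀ θ : ℝ, Q.θ₀ i ≤ θ →
    NLP (D k).σ (1 + K i) (1 / (1 + K i)) ((Q.ρ i : ℝ) ^ (J₁ i)) (2 / 2 ^ (J₁ i)) θ

/-- LVX: the levels exist -/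
def S_LVX : Prop :=
  ∀ (Ψ₀ : ℕ), (∀ p q : ℕ, Ψ₀ ≤ p → p ^ 8 ≤ q → q ≤ 2 ^ (Nat.sqrt p / 4) →
      ∃ σ : Fin p → Fin q → Bool, P1 σ ∧ P2 σ) →
    ∀ (P : ℕ → ℕ) (K η : ℕ → ℝ) (J₁ : ℕ → ℕ) (Q : Pos P K η J₁), Ψ₀ ≤ P 1 →
      StrictMono P → (∀ k, 1 ≤ k → (P k) ^ 8 ≤ P (k + 1)) →
      (∀ k, 1 ≤ k → P (k + 1) = 2 ^ (Nat.sqrt (P k) / 4)) → P 0 = 1 →
      ∃ D : ∀ k, Lv (P k) (P (k + 1)), LvH P K η J₁ Q D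

/-- CH: the conditions at the cuts -/
def S_CC : Prop :=
  ∀ (P : ℕ → ℕ) (K η : ℕ → ℝ) (J₁ : ℕ → ℕ) (Q : Pos P K η J₁)
    (D : ∀ k, Lv (P k) (P (k + 1))), StrictMono P → P 0 = 1 → 64 ≤ P 1 →
    (∀ k, 1 ≤ k → (P k) ^ (64 * (k + 1)) ≤ P (k + 1)) →
    (∀ c, 1 ≤ c → (dim0 P c) ^ 8 ≤ P (c + 1)) → (∀ k, 2 ^ k ≤ P (k + 1)) →
    (∀ i, 0 ≤ K i) → (∀ i, 0 < η i) → (∀ i, 1 ≤ J₁ i) → LvH P K η J₁ Q D →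
    (∀ k, 2 ≤ k → ∀ j, 1 ≤ j → j ≤ (D k).J → (8 : ℝ) ^ j ≤ (D k).r j) ∧
    (∀ k, 1 ≤ (D k).J → (D k).r (D k).J ≤ (P k : ℝ) ^ (1 / 8 : ℝ)) ∧
    (∀ k, (D k).J ≤ k) ∧
    ∀ i c, Q.a i ≤ c → c + 1 < Q.b i → CutH P D c (Q.b i) (J₁ i) (1 + K i) (1 / (1 + K i))
      ((Q.ρ i : ℝ) ^ (J₁ i))

/-- SS: summability of the costs -/
def S_SS : Prop :=
  ∀ (P : ℕ → ℕ) (K η : ℕ → ℝ) (J₁ : ℕ → ℕ) (Q : Pos P K η J₁)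
    (D : ∀ k, Lv (P k) (P (k + 1))), (∀ i, 0 < η i) → Summable η → LvH P K η J₁ Q D →
    Summable (fun k => 1 / (2 : ℝ) ^ (D k).J)

/-- SC: the construction exists -/
def S_SC : Prop := Nonempty Scheme

/-! ### conclusions -/

/-- HB: hereditary approximation property from vanishing traces -/
def S_HAP : Prop :=
  ∀ (P : ℕ → ℕ) (D : ∀ k, Lv (P k) (P (k + 1))),
    (∀ (ω : ℕ → ℝ) (u : ℕ → XX P D) (f : ℕ → (XX P D →L[ℂ] ℂ)), NRep P D ω u f →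
      ∑' i, (ω i : ℂ) * f i (u i) = 0) →
    ∀ Y : Submodule ℂ (XX P D), IsClosed (Y : Set (XX P D)) →
      ∀ K : Set Y, IsCompact K → ∀ ε : ℝ, 0 < ε →
        ∃ S : Y →L[ℂ] Y, FiniteDimensional ℂ (LinearMap.range (S : Y →ₗ[ℂ] Y)) ∧
          ∀ y ∈ K, ‖S y - y‖ < ε

/-- NLI: the Lidskii formula fails -/
def S_NLI : Prop :=
  ∀ s : Scheme, ∃ (f : ℕ → (XX s.P s.D →L[ℂ] ℂ)) (x : ℕ → XX s.P s.D)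
    (T : XX s.P s.D →L[ℂ] XX s.P s.D), Summable (fun i => ‖f i‖ * ‖x i‖) ∧
    (∀ y, T y = ∑' i, f i y • x i) ∧ ∑' i, f i (x i) = 0 ∧
    Summable (fun μ : ℂ => (Module.finrank ℂ
      (Module.End.maxGenEigenspace (T : XX s.P s.D →ₗ[ℂ] XX s.P s.D) μ) : ℝ) * ‖μ‖) ∧
    ∑' μ : ℂ, (Module.finrank ℂ
      (Module.End.maxGenEigenspace (T : XX s.P s.D →ₗ[ℂ] XX s.P s.D) μ) : ℂ) * μ = 1

end Pool.Agent.Helper25.HL
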