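import Pool.Agent.Helper25.HL.Defs

/-!
# Project HL: the level norms
-/

set_option autoImplicit false

open Filter Topology

noncomputable section

namespace Pool.Agent.Helper25.HL

/-- square of the Euclidean norm of a pair -/
def pq2 {p q : ℕ} (z : (Fin p → ℂ) × (Fin q → ℂ)) : ℝ := sq z.1 + sq z.2

/-- the graph map of the code -/
def Gm {p q : ℕ} (σ : Fin p → Fin q → Bool) : (Fin q → ℂ) →ₗ[ℂ] (Fin p → ℂ) × (Fin q → ℂ) :=
  (RV σ).prod LinearMap.id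

/-- the interpolation functional at scale `r` -/
def KK {p q : ℕ} (σ : Fin p → Fin q → Bool) (r : ℝ) (z : (Fin p → ℂ) × (Fin q → ℂ)) : ℝ :=
  ⨅ β : Fin q → ℂ, Real.sqrt (pq2 (z - Gm σ β) + (l1 β) ^ 2 / r)

/-- the functionals `K_j` -/
def Kj {p q : ℕ} (σ : Fin p → Fin q → Bool) (r : ℕ → ℝ) (j : ℕ)
    (z : (Fin p → ℂ) × (Fin q → ℂ)) : ℝ :=
  if j = 0 then Real.sqrt (pq2 z) else KK σ (r j) z

/-- the level norm -/
def lnm {p q : ℕ} (σ : Fin p → Fin q → Bool) (J : ℕ) (r : ℕ → ℝ)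
    (z : (Fin p → ℂ) × (Fin q → ℂ)) : ℝ :=
  Real.sqrt (∑ j ∈ Finset.range (J + 1), (4 : ℝ) ^ j / 4 ^ J * (Kj σ r j z) ^ 2)

/-- the level norm starting at scale `J₁` -/
def lnm' {p q : ℕ} (σ : Fin p → Fin q → Bool) (J₁ J : ℕ) (r : ℕ → ℝ)
    (z : (Fin p → ℂ) × (Fin q → ℂ)) : ℝ :=
  Real.sqrt ((4 : ℝ) ^ J₁ / 4 ^ J * pq2 z +
    ∑ j ∈ Finset.Ioc J₁ J, (4 : ℝ) ^ j / 4 ^ J * (Kj σ r j z) ^ 2)

section basic

variable {p q : ℕ}

theorem sq_nn {ι : Type} [Fintype ι] (z : ι → ℂ) : 0 ≤ sq z :=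
  Finset.sum_nonneg fun _ _ => by positivity

theorem l1_nn {ι : Type} [Fintype ι] (z : ι → ℂ) : 0 ≤ l1 z :=
  Finset.sum_nonneg fun _ _ => norm_nonneg _

theorem sq_eq {ι : Type} [Fintype ι] (z : ι → ℂ) : sq z = ‖(WithLp.toLp 2 z : EuclideanSpace ℂ ι)‖ ^ 2 := by
  rw [EuclideanSpace.norm_sq_eq]; rfl

theorem pq2_nn (z : (Fin p → ℂ) × (Fin q → ℂ)) : 0 ≤ pq2 z := add_nonneg (sq_nn _) (sq_nn _)

theorem pq2_eq (z : (Fin p → ℂ) × (Fin q → ℂ)) :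
    pq2 z = ‖(WithLp.toLp 2 (Sum.elim z.1 z.2) : EuclideanSpace ℂ (Fin p ⊕ Fin q))‖ ^ 2 := by
  rw [← sq_eq]
  unfold pq2 sq
  rw [Fintype.sum_sum_type]
  rfl

theorem e2_add (z z' : (Fin p → ℂ) × (Fin q → ℂ)) :
    Real.sqrt (pq2 (z + z')) ≤ Real.sqrt (pq2 z) + Real.sqrt (pq2 z') := by
  rw [pq2_eq, pq2_eq, pq2_eq, Real.sqrt_sq (norm_nonneg _), Real.sqrt_sq (norm_nonneg _),
    Real.sqrt_sq (norm_nonneg _)]
  have : (WithLp.toLp 2 (Sum.elim (z + z').1 (z + z').2) : EuclideanSpace ℂ (Fin p ⊕ Fin q)) =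
      WithLp.toLp 2 (Sum.elim z.1 z.2) + WithLp.toLp 2 (Sum.elim z'.1 z'.2) := by
    ext i
    rcases i with i | i <;> simp
  rw [this]
  exact norm_add_le _ _

theorem pq2_smul (c : ℂ) (z : (Fin p → ℂ) × (Fin q → ℂ)) : pq2 (c • z) = ‖c‖ ^ 2 * pq2 z := by
  unfold pq2 sq
  simp only [Prod.smul_fst, Prod.smul_snd, Pi.smul_apply, smul_eq_mul, norm_mul, mul_pow,
    Finset.mul_sum, mul_add]

theorem l1_add {ι : Type} [Fintype ι] (x y : ι → ℂ) : l1 (x + y) ≤ l1 x + l1 y := by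
  unfold l1
  rw [← Finset.sum_add_distrib]
  exact Finset.sum_le_sum fun t _ => norm_add_le _ _

theorem l1_smul {ι : Type} [Fintype ι] (c : ℂ) (x : ι → ℂ) : l1 (c • x) = ‖c‖ * l1 x := by
  unfold l1
  simp only [Pi.smul_apply, smul_eq_mul, norm_mul, Finset.mul_sum]

/-- Minkowski in dimension two -/
theorem mink2 (x y x' y' : ℝ) :
    Real.sqrt ((x + x') ^ 2 + (y + y') ^ 2) ≤
      Real.sqrt (x ^ 2 + y ^ 2) + Real.sqrt (x' ^ 2 + y' ^ 2) := by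
  have h1 : 0 ≤ x ^ 2 + y ^ 2 := by positivity
  have h2 : 0 ≤ x' ^ 2 + y' ^ 2 := by positivity
  apply Real.sqrt_le_iff.2
  refine ⟨by positivity, ?_⟩
  have h3 := Real.sq_sqrt h1
  have h4 := Real.sq_sqrt h2
  have h5 : x * x' + y * y' ≤ Real.sqrt (x ^ 2 + y ^ 2) * Real.sqrt (x' ^ 2 + y' ^ 2) := by
    rw [← Real.sqrt_mul h1]
    apply Real.le_sqrt_of_sq_le
    nlinarith [sq_nonneg (x * y' - y * x')]
  nlinarith

theorem KK_bdd (σ : Fin p → Fin q → Bool) (r : ℝ) (z : (Fin p → ℂ) × (Fin q → ℂ)) :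
    BddBelow (Set.range fun β : Fin q → ℂ => Real.sqrt (pq2 (z - Gm σ β) + (l1 β) ^ 2 / r)) :=
  ⟨0, by rintro _ ⟨β, rfl⟩; exact Real.sqrt_nonneg _⟩

theorem KK_nn (σ : Fin p → Fin q → Bool) (r : ℝ) (z : (Fin p → ℂ) × (Fin q → ℂ)) :
    0 ≤ KK σ r z := le_ciInf fun _ => Real.sqrt_nonneg _

theorem KK_le (σ : Fin p → Fin q → Bool) (r : ℝ) (z : (Fin p → ℂ) × (Fin q → ℂ))
    (β : Fin q → ℂ) : KK σ r z ≤ Real.sqrt (pq2 (z - Gm σ β) + (l1 β) ^ 2 / r) :=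
  ciInf_le (KK_bdd σ r z) β

theorem KK_le_e2 (σ : Fin p → Fin q → Bool) (r : ℝ) (z : (Fin p → ℂ) × (Fin q → ℂ)) :
    KK σ r z ≤ Real.sqrt (pq2 z) := by
  have := KK_le σ r z 0
  simpa [l1] using this

theorem KK_add_aux (σ : Fin p → Fin q → Bool) {r : ℝ} (hr : 0 < r)
    (z z' : (Fin p → ℂ) × (Fin q → ℂ)) (β β' : Fin q → ℂ) : KK σ r (z + z') ≤
      Real.sqrt (pq2 (z - Gm σ β) + (l1 β) ^ 2 / r) +
      Real.sqrt (pq2 (z' - Gm σ β') + (l1 β') ^ 2 / r) := by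
  refine (KK_le σ r (z + z') (β + β')).trans ?_
  have e1 : pq2 (z + z' - Gm σ (β + β')) ≤
      (Real.sqrt (pq2 (z - Gm σ β)) + Real.sqrt (pq2 (z' - Gm σ β'))) ^ 2 := by
    have h := e2_add (z - Gm σ β) (z' - Gm σ β')
    have h' : z - Gm σ β + (z' - Gm σ β') = z + z' - Gm σ (β + β') := by
      rw [map_add]; abel
    rw [h'] at h
    calc pq2 (z + z' - Gm σ (β + β')) = Real.sqrt (pq2 (z + z' - Gm σ (β + β'))) ^ 2 :=
          (Real.sq_sqrt (pq2_nn _)).symm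
      _ ≤ _ := by gcongr
  have e2 : (l1 (β + β')) ^ 2 / r ≤ (l1 β / Real.sqrt r + l1 β' / Real.sqrt r) ^ 2 := by
    rw [← add_div, div_pow, Real.sq_sqrt hr.le]
    gcongr
    · exact l1_nn _
    · exact l1_add _ _
  have e3 := mink2 (Real.sqrt (pq2 (z - Gm σ β))) (l1 β / Real.sqrt r)
    (Real.sqrt (pq2 (z' - Gm σ β'))) (l1 β' / Real.sqrt r)
  rw [Real.sq_sqrt (pq2_nn _), Real.sq_sqrt (pq2_nn _), div_pow, div_pow,
    Real.sq_sqrt hr.le] at e3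
  exact (Real.sqrt_le_sqrt (add_le_add e1 e2)).trans e3

theorem KK_add (σ : Fin p → Fin q → Bool) {r : ℝ} (hr : 0 < r)
    (z z' : (Fin p → ℂ) × (Fin q → ℂ)) : KK σ r (z + z') ≤ KK σ r z + KK σ r z' := by
  have main : ∀ β β' : Fin q → ℂ, KK σ r (z + z') ≤
      Real.sqrt (pq2 (z - Gm σ β) + (l1 β) ^ 2 / r) +
      Real.sqrt (pq2 (z' - Gm σ β') + (l1 β') ^ 2 / r) := by
    intro β β'
    exact KK_add_aux σ hr z z' β β'
  have h1 : ∀ β' : Fin q → ℂ, KK σ r (z + z') -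
      Real.sqrt (pq2 (z' - Gm σ β') + (l1 β') ^ 2 / r) ≤ KK σ r z := fun β' =>
    le_ciInf fun β => by linarith [main β β']
  have h2 : KK σ r (z + z') - KK σ r z ≤ KK σ r z' := le_ciInf fun β' => by
    linarith [h1 β']
  linarith

theorem KK_smul_le (σ : Fin p → Fin q → Bool) {r : ℝ} (_hr : 0 < r) (c : ℂ)
    (z : (Fin p → ℂ) × (Fin q → ℂ)) : KK σ r (c • z) ≤ ‖c‖ * KK σ r z := by
  unfold KK
  rw [Real.mul_iInf_of_nonneg (norm_nonneg c)]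
  refine le_ciInf fun β => ?_
  refine (KK_le σ r (c • z) (c • β)).trans ?_
  have h1 : c • z - Gm σ (c • β) = c • (z - Gm σ β) := by rw [map_smul, smul_sub]
  rw [h1, pq2_smul, l1_smul]
  have h2 : ‖c‖ ^ 2 * pq2 (z - Gm σ β) + (‖c‖ * l1 β) ^ 2 / r =
      ‖c‖ ^ 2 * (pq2 (z - Gm σ β) + (l1 β) ^ 2 / r) := by ring
  rw [h2, Real.sqrt_mul (by positivity), Real.sqrt_sq (norm_nonneg c)]

theorem Kj_nn (σ : Fin p → Fin q → Bool) (r : ℕ → ℝ) (j : ℕ)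
    (z : (Fin p → ℂ) × (Fin q → ℂ)) : 0 ≤ Kj σ r j z := by
  unfold Kj
  split_ifs
  · exact Real.sqrt_nonneg _
  · exact KK_nn _ _ _

theorem Kj_add (σ : Fin p → Fin q → Bool) {r : ℕ → ℝ} (hr : ∀ j, 0 < r j) (j : ℕ)
    (z z' : (Fin p → ℂ) × (Fin q → ℂ)) : Kj σ r j (z + z') ≤ Kj σ r j z + Kj σ r j z' := by
  unfold Kj
  split_ifs
  · exact e2_add _ _
  · exact KK_add σ (hr j) _ _

theorem Kj_smul_le (σ : Fin p → Fin q → Bool) {r : ℕ → ℝ} (hr : ∀ j, 0 < r j) (j : ℕ) (c : ℂ)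
    (z : (Fin p → ℂ) × (Fin q → ℂ)) : Kj σ r j (c • z) ≤ ‖c‖ * Kj σ r j z := by
  unfold Kj
  split_ifs
  · rw [pq2_smul, Real.sqrt_mul (by positivity), Real.sqrt_sq (norm_nonneg c)]
  · exact KK_smul_le σ (hr j) c z

theorem lnm_nn (σ : Fin p → Fin q → Bool) (J : ℕ) (r : ℕ → ℝ)
    (z : (Fin p → ℂ) × (Fin q → ℂ)) : 0 ≤ lnm σ J r z := Real.sqrt_nonneg _

theorem lnm_add (σ : Fin p → Fin q → Bool) (J : ℕ) {r : ℕ → ℝ} (hr : ∀ j, 0 < r j)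
    (z z' : (Fin p → ℂ) × (Fin q → ℂ)) :
    lnm σ J r (z + z') ≤ lnm σ J r z + lnm σ J r z' := by
  unfold lnm
  set c : ℕ → ℝ := fun j => Real.sqrt ((4 : ℝ) ^ j / 4 ^ J) with hc
  have hcs : ∀ j, (c j) ^ 2 = (4 : ℝ) ^ j / 4 ^ J := fun j => Real.sq_sqrt (by positivity)
  have key : ∀ w : (Fin p → ℂ) × (Fin q → ℂ),
      Real.sqrt (∑ j ∈ Finset.range (J + 1), (4 : ℝ) ^ j / 4 ^ J * (Kj σ r j w) ^ 2) =
      ‖(WithLp.toLp 2 (fun j : Fin (J + 1) => c j * Kj σ r j w) :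
        EuclideanSpace ℝ (Fin (J + 1)))‖ := by
    intro w
    rw [EuclideanSpace.norm_eq, ← Fin.sum_univ_eq_sum_range
      (fun j => (4 : ℝ) ^ j / 4 ^ J * (Kj σ r j w) ^ 2)]
    congr 1
    refine Finset.sum_congr rfl fun j _ => ?_
    simp only [Real.norm_eq_abs, sq_abs, mul_pow, hcs]
  rw [key z, key z']
  refine le_trans ?_ (norm_add_le _ _)
  rw [EuclideanSpace.norm_eq, ← Fin.sum_univ_eq_sum_range
      (fun j => (4 : ℝ) ^ j / 4 ^ J * (Kj σ r j (z + z')) ^ 2)]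
  apply Real.sqrt_le_sqrt
  refine Finset.sum_le_sum fun j _ => ?_
  rw [← hcs, ← mul_pow]
  simp only [PiLp.add_apply, Real.norm_eq_abs, sq_abs]
  rw [← mul_add]
  refine pow_le_pow_left₀ (mul_nonneg (Real.sqrt_nonneg _) (Kj_nn _ _ _ _)) ?_ 2
  exact mul_le_mul_of_nonneg_left (Kj_add σ hr _ _ _) (Real.sqrt_nonneg _)

theorem lnm_smul_le (σ : Fin p → Fin q → Bool) (J : ℕ) {r : ℕ → ℝ} (hr : ∀ j, 0 < r j)
    (c : ℂ) (z : (Fin p → ℂ) × (Fin q → ℂ)) :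
    lnm σ J r (c • z) ≤ ‖c‖ * lnm σ J r z := by
  unfold lnm
  rw [← Real.sqrt_sq (norm_nonneg c), ← Real.sqrt_mul (by positivity), Finset.mul_sum]
  apply Real.sqrt_le_sqrt
  refine Finset.sum_le_sum fun j _ => ?_
  have h1 := Kj_smul_le σ hr j c z
  have h2 : (Kj σ r j (c • z)) ^ 2 ≤ (‖c‖ * Kj σ r j z) ^ 2 :=
    pow_le_pow_left₀ (Kj_nn _ _ _ _) h1 2
  calc (4 : ℝ) ^ j / 4 ^ J * (Kj σ r j (c • z)) ^ 2 ≤
      (4 : ℝ) ^ j / 4 ^ J * (‖c‖ * Kj σ r j z) ^ 2 := by gcongr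
    _ = _ := by ring

theorem lnm_smul (σ : Fin p → Fin q → Bool) (J : ℕ) {r : ℕ → ℝ} (hr : ∀ j, 0 < r j)
    (c : ℂ) (z : (Fin p → ℂ) × (Fin q → ℂ)) :
    lnm σ J r (c • z) = ‖c‖ * lnm σ J r z := by
  refine le_antisymm (lnm_smul_le σ J hr c z) ?_
  by_cases hc : c = 0
  · subst hc
    simpa using lnm_nn σ J r ((0 : ℂ) • z)
  · have h := lnm_smul_le σ J hr c⁻¹ (c • z)
    rw [smul_smul, inv_mul_cancel₀ hc, one_smul, norm_inv] at h
    have hc' : 0 < ‖c‖ := norm_pos_iff.2 hc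
    calc ‖c‖ * lnm σ J r z ≤ ‖c‖ * (‖c‖⁻¹ * lnm σ J r (c • z)) := by gcongr
      _ = lnm σ J r (c • z) := by field_simp

theorem pq2_le_lnm (σ : Fin p → Fin q → Bool) (J : ℕ) (r : ℕ → ℝ)
    (z : (Fin p → ℂ) × (Fin q → ℂ)) : pq2 z ≤ 4 ^ J * (lnm σ J r z) ^ 2 := by
  unfold lnm
  rw [Real.sq_sqrt (Finset.sum_nonneg fun j _ => by positivity)]
  have h1 : (4 : ℝ) ^ 0 / 4 ^ J * (Kj σ r 0 z) ^ 2 ≤
      ∑ j ∈ Finset.range (J + 1), (4 : ℝ) ^ j / 4 ^ J * (Kj σ r j z) ^ 2 :=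
    Finset.single_le_sum (f := fun j => (4 : ℝ) ^ j / 4 ^ J * (Kj σ r j z) ^ 2)
      (fun j _ => by positivity) (Finset.mem_range.2 (Nat.succ_pos J))
  have h2 : Kj σ r 0 z = Real.sqrt (pq2 z) := by simp [Kj]
  rw [h2, Real.sq_sqrt (pq2_nn z), pow_zero] at h1
  calc pq2 z = 4 ^ J * (1 / 4 ^ J * pq2 z) := by field_simp
    _ ≤ _ := by gcongr

theorem lnm_eq_zero (σ : Fin p → Fin q → Bool) (J : ℕ) (r : ℕ → ℝ)
    (z : (Fin p → ℂ) × (Fin q → ℂ)) (h : lnm σ J r z = 0) : z = 0 := by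
  have h1 := pq2_le_lnm σ J r z
  rw [h] at h1
  have h2 : pq2 z = 0 := le_antisymm (by simpa using h1) (pq2_nn z)
  have h3 : sq z.1 = 0 := by
    have := sq_nn z.1; have := sq_nn z.2; unfold pq2 at h2; linarith
  have h4 : sq z.2 = 0 := by
    have := sq_nn z.1; have := sq_nn z.2; unfold pq2 at h2; linarith
  have aux : ∀ {ι : Type} [Fintype ι] (w : ι → ℂ), sq w = 0 → w = 0 := by
    intro ι _ w hw
    funext t
    have := (Finset.sum_eq_zero_iff_of_nonneg (fun t _ => by positivity)).1 hw t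
      (Finset.mem_univ t)
    simpa using this
  exact Prod.ext (aux _ h3) (aux _ h4)

end basic

/-- the data of one level: code, number of scales, thresholds -/
structure Lv (p q : ℕ) where
  σ : Fin p → Fin q → Bool
  J : ℕ
  r : ℕ → ℝ
  hr : ∀ j, 0 < r j

/-- the space of one level -/
def LV {p q : ℕ} (_D : Lv p q) : Type := (Fin p → ℂ) × (Fin q → ℂ)

section inst

variable {p q : ℕ} (D : Lv p q)

instance : AddCommGroup (LV D) := inferInstanceAs (AddCommGroup ((Fin p → ℂ) × (Fin q → ℂ)))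
instance : Module ℂ (LV D) := inferInstanceAs (Module ℂ ((Fin p → ℂ) × (Fin q → ℂ)))

/-- identification of the level with the space of pairs -/
def toPair : LV D ≃ₗ[ℂ] (Fin p → ℂ) × (Fin q → ℂ) := LinearEquiv.refl ℂ _

instance : Norm (LV D) := ⟨fun z => lnm D.σ D.J D.r (toPair D z)⟩

theorem LV_norm_def (z : LV D) : ‖z‖ = lnm D.σ D.J D.r (toPair D z) := rfl

theorem LV_core : NormedSpace.Core ℂ (LV D) where
  norm_nonneg z := lnm_nn _ _ _ _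
  norm_eq_zero_iff z := by
    constructor
    · intro h
      exact (toPair D).injective (by rw [map_zero]; exact lnm_eq_zero _ _ _ _ h)
    · rintro rfl
      have := lnm_smul D.σ D.J D.hr 0 (toPair D 0)
      rw [LV_norm_def]
      simpa using this
  norm_smul c z := by
    rw [LV_norm_def, LV_norm_def, map_smul]
    exact lnm_smul _ _ D.hr _ _
  norm_triangle z w := by
    rw [LV_norm_def, LV_norm_def, LV_norm_def, map_add]
    exact lnm_add _ _ D.hr _ _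

instance : NormedAddCommGroup (LV D) := NormedAddCommGroup.ofCore (LV_core D)
instance : NormedSpace ℂ (LV D) := NormedSpace.ofCore (LV_core D)
instance : FiniteDimensional ℂ (LV D) := (toPair D).symm.finiteDimensional
instance : CompleteSpace (LV D) := FiniteDimensional.complete ℂ (LV D)

end inst

/-- the Hilbert sum of the levels -/
abbrev XX (P : ℕ → ℕ) (D : ∀ k, Lv (P k) (P (k + 1))) : Type := lp (fun k => LV (D k)) 2

end Pool.Agent.Helper25.HL
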