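import Pool.Agent.Helper25.HL.Goals1
import Pool.Agent.Helper25.HL.Goals2
import Pool.Agent.Helper22.HL.TIK
import Pool.Agent.Helper86.HL.ADJ
import Pool.Agent.Helper3.HL.WP
import Pool.Agent.Helper53.HL.DU
import Pool.Agent.Helper83.HL.OPN
import Pool.Agent.Helper53.HL.SA1
import Pool.Agent.Helper70.HL.SA2
import Pool.Agent.Helper26.HL.EBF
import Pool.Agent.Helper5.HL.RDG
import Pool.Agent.Helper18.HL.RO
import Pool.Agent.Helper56.HL.COH
import Pool.Agent.Helper85.HL.RL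
import Pool.Agent.Helper8.HL.SH
import Pool.Agent.Helper6.HL.EM
import Pool.Agent.Helper6.HL.LP
import Pool.Agent.Helper32.HL.NU
import Pool.Agent.Helper9.HL.FIN
import Pool.Agent.Helper16.HL.LAB
import Pool.Agent.Helper39.HL.MG
import Pool.Agent.Helper58.HL.CH4
import Pool.Agent.Helper27.HL.CH3
import Pool.Agent.Helper82.HL.EBS
import Pool.Agent.Helper99.HL.DEP
import Pool.Agent.Helper59.HL.FUB
import Pool.Agent.Helper81.HL.F3
import Pool.Agent.Helper6.HL.F4
import Pool.Agent.Helper18.HL.GIC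
import Pool.Agent.Helper46.HL.R1
import Pool.Agent.Helper93.HL.R2
import Pool.Agent.Helper15.HL.R3
import Pool.Agent.Helper64.HL.R4

/-!
# Project HL: the near-level lemma, all parts
-/

set_option autoImplicit false

open Filter Topology

noncomputable section

namespace Pool.Agent.Helper25.HL

theorem h_adj : S_ADJ := Pool.Agent.Helper86.HL.adj
theorem h_rl : S_RL := Pool.Agent.Helper85.HL.rl
theorem h_coh : S_COH := Pool.Agent.Helper56.HL.coh
theorem h_ebf : S_EBF := Pool.Agent.Helper26.HL.ebf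
theorem h_fin : S_FIN := Pool.Agent.Helper9.HL.fin Pool.Agent.Helper22.HL.tik h_adj
  (Pool.Agent.Helper3.HL.wp h_adj) (Pool.Agent.Helper53.HL.du h_adj)
  (Pool.Agent.Helper83.HL.opn h_adj) h_rl
theorem h_em : S_EM := Pool.Agent.Helper6.HL.em Pool.Agent.Helper53.HL.sa1 h_ebf h_rl
theorem h_lp : S_LP := Pool.Agent.Helper6.HL.lp Pool.Agent.Helper70.HL.sa2 h_rl
theorem h_nu : S_NU := Pool.Agent.Helper32.HL.nu h_coh h_ebf
theorem h_lab : S_LAB := Pool.Agent.Helper16.HL.lab Pool.Agent.Helper5.HL.rdg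
  Pool.Agent.Helper18.HL.ro h_coh Pool.Agent.Helper8.HL.sh h_em h_lp h_nu h_ebf h_rl
theorem h_cl : S_CL := cl h_lab h_fin
theorem h_f3 : S_F3 := Pool.Agent.Helper81.HL.f3
  (Pool.Agent.Helper27.HL.ch3 Pool.Agent.Helper39.HL.mg) Pool.Agent.Helper82.HL.ebs
  Pool.Agent.Helper99.HL.dep Pool.Agent.Helper59.HL.fub h_rl
theorem h_f4 : S_F4 := Pool.Agent.Helper6.HL.f4
  (Pool.Agent.Helper58.HL.ch4 Pool.Agent.Helper39.HL.mg)
theorem h_re : S_RE := re Pool.Agent.Helper46.HL.r1 Pool.Agent.Helper93.HL.r2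
  (Pool.Agent.Helper15.HL.r3 h_f3 Pool.Agent.Helper18.HL.gic)
  (Pool.Agent.Helper64.HL.r4 h_f4 Pool.Agent.Helper18.HL.gic)
theorem h_nl : S_NL := nl h_re h_cl

end Pool.Agent.Helper25.HL
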