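import Pool.Agent.Helper25.HL.Goals4

/-!
# Project HL: assembly of the construction
-/

set_option autoImplicit false

open Filter Topology

noncomputable section

namespace Pool.Agent.Helper25.HL

theorem psi0 (h : S_NL) : ∃ Ψ₀ : ℕ, ∀ p q : ℕ, Ψ₀ ≤ p → p ^ 8 ≤ q →
    q ≤ 2 ^ (Nat.sqrt p / 4) → ∃ σ : Fin p → Fin q → Bool, P1 σ ∧ P2 σ := by
  obtain ⟨θ₀, Ψ, hΨ⟩ := h 1 1 1 (1 / 2 ^ 20) le_rfl one_pos le_rfl le_rfl (by positivity)
    (by norm_num)
  refine ⟨Ψ, fun p q h1 h2 h3 => ?_⟩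
  obtain ⟨σ, s1, s2, _⟩ := hΨ p q h1 h2 h3
  exact ⟨σ, s1, s2⟩

/-- the construction exists -/
theorem sc (hNL : S_NL) (hPS : S_PS) (hPQ : S_PQ) (hPO : S_PO) (hLVX : S_LVX) (hCC : S_CC)
    (hSS : S_SS) : S_SC := by
  obtain ⟨Ψ₀, hΨ₀⟩ := psi0 hNL
  obtain ⟨P, P0, PM, Pmono, P64, Prec, Pbig, Pdim, P2k⟩ := hPS Ψ₀
  obtain ⟨K, η, J₁, hK, hη, _, hJ₁, hηs, hdiv, hKinf, hlim, hrel⟩ := hPQ
  have Ppos : ∀ k, 1 ≤ P k := by
    intro k
    have : P 0 ≤ P k := Pmono.monotone (Nat.zero_le k)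
    omega
  have Pid : ∀ k, k ≤ P k := fun k => Pmono.id_le k
  obtain ⟨Q⟩ := hPO P K η J₁ Pid Ppos hK hη hrel
  have P8 : ∀ k, 1 ≤ k → (P k) ^ 8 ≤ P (k + 1) := fun k hk =>
    (Nat.pow_le_pow_right (Ppos k) (by omega)).trans (Pbig k hk)
  obtain ⟨D, hD⟩ := hLVX Ψ₀ hΨ₀ P K η J₁ Q PM Pmono P8 Prec P0
  obtain ⟨c1, c2, c3, c4⟩ := hCC P K η J₁ Q D Pmono P0 P64 Pbig Pdim P2k hK hη hJ₁ hD
  have hab : ∀ i, Q.a i + 1 < Q.b i := fun i => by rw [Q.hb i]; omega
  have hJa : ∀ i, (D (Q.a i)).J = Q.Jw i := fun i =>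
    hD.hJw i (Q.a i) le_rfl (by have := hab i; omega)
  have W : Win P D :=
    { a := Q.a
      b := Q.b
      J₁ := J₁
      K := K
      ε := fun i => 1 / (1 + K i)
      R := fun i => (Q.ρ i : ℝ) ^ (J₁ i)
      η := η
      hab := hab
      hba := fun i => (Q.hba i).le
      hK := hK
      hη := hη
      hcut := c4
      hJw := fun i k h1 h2 => by rw [hJa i]; exact hD.hJw i k h1 h2
      hlen := by
        intro i
        rw [hJa i, Q.hb i]
        push_cast
        have := Nat.le_ceil (η i * 2 ^ (Q.Jw i))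
        linarith
      hdiv := hdiv
      hlim1 := hlim
      hlim2 := by
        have h1 : (fun i => Real.sqrt (1 + K i) * (1 / (1 + K i))) =
            fun i => (Real.sqrt (1 + K i))⁻¹ := by
          funext i
          have h2 : 0 < 1 + K i := by linarith [hK i]
          have h3 := Real.mul_self_sqrt h2.le
          have h4 : 0 < Real.sqrt (1 + K i) := Real.sqrt_pos.2 h2
          field_simp
          nlinarith
        rw [h1]
        apply Tendsto.inv_tendsto_atTop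
        exact (Real.tendsto_sqrt_atTop).comp (tendsto_atTop_add_const_left _ _ hKinf)
      hlim3 := by
        have hb : ∀ i, (1 + K i) * (Q.ρ i : ℝ) ^ (J₁ i) / 2 ^ (D (Q.a i)).J ≤
            1 / ((i : ℝ) + 1) := by
          intro i
          rw [hJa i, div_le_div_iff₀ (by positivity) (by positivity), one_mul]
          have := Q.hR i
          linarith
        refine squeeze_zero (fun i => ?_) hb tendsto_one_div_add_atTop_nhds_zero_nat
        have h2 : 0 ≤ 1 + K i := by linarith [hK i]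
        positivity }
  have hP2 : ∀ k, 2 ≤ P (k + 1) := by
    intro k
    have : P 1 ≤ P (k + 1) := Pmono.monotone (by omega)
    omega
  exact ⟨⟨P, D, W, P0, hP2, P8, fun k hk => (hD.h12 k hk).1, fun k hk => (hD.h12 k hk).2, c1,
    c2, c3, hSS P K η J₁ Q D hη hηs hD⟩⟩

end Pool.Agent.Helper25.HL
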